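import Pool.Agent.W770.QP.Defs

set_option autoImplicit false

namespace Pool.Agent.W770.QP

set_option linter.unusedSectionVars false

open Complex Metric Set Filter Topology
open scoped Manifold ContDiff ComplexConjugate ENNReal

/-! ### The zeros of a Blaschke product are locally finite in the disc -/

theorem zeros_finite {ι : Type} {a : ι → ℂ} {b : ℂ → ℂ} (h : IsBlaschkeZeros a b) {ρ : ℝ}
    (hρ : ρ < 1) : {i | ‖a i‖ ≤ ρ}.Finite := by
  have hs := h.2.2.1.tendsto_cofinite_zero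
  have h1 : ∀ᶠ i in cofinite, 1 - ‖a i‖ < 1 - ρ := hs.eventually (gt_mem_nhds (by linarith))
  rw [eventually_cofinite] at h1
  refine h1.subset (fun i hi => ?_)
  simp only [mem_ofPred_eq] at hi ⊢
  linarith

theorem range_isolated {ι : Type} {a : ι → ℂ} {b : ℂ → ℂ} (h : IsBlaschkeZeros a b) {z : ℂ}
    (hz : z ∈ ball (0 : ℂ) 1) : ∀ᶠ w in 𝓝[≠] z, w ∈ ball (0 : ℂ) 1 ∧ w ∉ range a := by
  rw [mem_ball_zero_iff] at hz
  set ρ : ℝ := (1 + ‖z‖) / 2 with hρ
  have hρ1 : ρ < 1 := by rw [hρ]; linarith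
  have hzρ : ‖z‖ < ρ := by rw [hρ]; linarith
  have hfin : (a '' {i | ‖a i‖ ≤ ρ} \ {z}).Finite := ((zeros_finite h hρ1).image a).sdiff
  have hopen : IsOpen (ball (0 : ℂ) ρ ∩ (a '' {i | ‖a i‖ ≤ ρ} \ {z})ᶜ) :=
    isOpen_ball.inter hfin.isClosed.isOpen_compl
  have hmem : z ∈ ball (0 : ℂ) ρ ∩ (a '' {i | ‖a i‖ ≤ ρ} \ {z})ᶜ :=
    ⟨by rwa [mem_ball_zero_iff], fun hh => hh.2 rfl⟩
  filter_upwards [mem_nhdsWithin_of_mem_nhds (hopen.mem_nhds hmem), self_mem_nhdsWithin]
    with w hw hwz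
  refine ⟨?_, ?_⟩
  · have := hw.1
    rw [mem_ball_zero_iff] at this ⊢
    linarith
  · rintro ⟨i, rfl⟩
    apply hw.2
    have := hw.1
    rw [mem_ball_zero_iff] at this
    exact ⟨⟨i, this.le, rfl⟩, hwz⟩

section Surface

variable {X : Type} [TopologicalSpace X] [ChartedSpace ℂ X] [IsManifold 𝓘(ℂ) ⊤ X]
  {φ : X → ℂ} {σ : X → X} {ϑ : X → ℂ} {B : ℂ → ℂ}

/-- a section of `φ` -/
noncomputable def sect (h : TwoSheeted φ σ ϑ B) (z : ℂ) (hz : z ∈ ball (0 : ℂ) 1) : X :=
  (h.fibre z hz).choose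

theorem sect_fibre (h : TwoSheeted φ σ ϑ B) (z : ℂ) (hz : z ∈ ball (0 : ℂ) 1) :
    φ ⁻¹' {z} = {sect h z hz, σ (sect h z hz)} := (h.fibre z hz).choose_spec

theorem phi_sect (h : TwoSheeted φ σ ϑ B) (z : ℂ) (hz : z ∈ ball (0 : ℂ) 1) :
    φ (sect h z hz) = z := by
  have : sect h z hz ∈ φ ⁻¹' {z} := by rw [sect_fibre h z hz]; simp
  exact this

theorem eq_or (h : TwoSheeted φ σ ϑ B) (x : X) :
    x = sect h (φ x) (h.mem x) ∨ x = σ (sect h (φ x) (h.mem x)) := by
  have : x ∈ φ ⁻¹' {φ x} := rfl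
  rw [sect_fibre h (φ x) (h.mem x)] at this
  exact this

theorem phi_sigma (h : TwoSheeted φ σ ϑ B) (x : X) : φ (σ x) = φ x := by
  have h1 := sect_fibre h (φ x) (h.mem x)
  rcases eq_or h x with h2 | h2
  · have : σ (sect h (φ x) (h.mem x)) ∈ φ ⁻¹' {φ x} := by rw [h1]; simp
    rw [← h2] at this
    exact this
  · have h3 : σ x = sect h (φ x) (h.mem x) := by
      conv_lhs => rw [h2]
      exact h.sigma_sq _
    rw [h3]
    exact phi_sect h _ _

open Classical in
/-- the function on the disc induced by an even function on `X` -/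
noncomputable def desc (h : TwoSheeted φ σ ϑ B) (g : X → ℂ) (z : ℂ) : ℂ :=
  if hz : z ∈ ball (0 : ℂ) 1 then g (sect h z hz) else 0

theorem desc_phi (h : TwoSheeted φ σ ϑ B) (g : X → ℂ) (hg : ∀ x, g (σ x) = g x) (x : X) :
    desc h g (φ x) = g x := by
  rw [desc, dif_pos (h.mem x)]
  rcases eq_or h x with h2 | h2
  · rw [← h2]
  · conv_rhs => rw [h2]
    exact (hg _).symm

theorem desc_continuousOn (h : TwoSheeted φ σ ϑ B) (g : X → ℂ) (hgc : Continuous g)
    (hg : ∀ x, g (σ x) = g x) : ContinuousOn (desc h g) (ball 0 1) := by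
  have hφc : Continuous φ := h.hol.continuous
  intro z hz
  apply ContinuousAt.continuousWithinAt
  obtain ⟨ε, hε, hεb⟩ := Metric.isOpen_iff.1 isOpen_ball z hz
  have hK : IsCompact (φ ⁻¹' closedBall z (ε / 2)) :=
    h.proper _ ((closedBall_subset_ball (by linarith)).trans hεb) (isCompact_closedBall _ _)
  rw [ContinuousAt, tendsto_iff_ultrafilter]
  intro U hU
  -- the section along the ultrafilter
  classical
  have hne : Nonempty X := ⟨sect h z hz⟩
  set s : ℂ → X := fun w => if hw : w ∈ ball (0 : ℂ) 1 then sect h w hw else sect h z hz with hs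
  have hsφ : ∀ w ∈ ball (0 : ℂ) 1, φ (s w) = w := by
    intro w hw
    rw [hs]
    simp only [dif_pos hw]
    exact phi_sect h w hw
  have hball : ∀ᶠ w in (U : Filter ℂ), w ∈ ball (0 : ℂ) 1 := hU (isOpen_ball.mem_nhds hz)
  have hcb : ∀ᶠ w in (U : Filter ℂ), w ∈ closedBall z (ε / 2) :=
    hU (closedBall_mem_nhds z (by linarith))
  have hmemK : φ ⁻¹' closedBall z (ε / 2) ∈ (U.map s) := by
    rw [Ultrafilter.mem_map]
    filter_upwards [hball, hcb] with w hw hw'
    change φ (s w) ∈ closedBall z (ε / 2)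
    rwa [hsφ w hw]
  obtain ⟨x, -, hx⟩ := hK.ultrafilter_le_nhds' (U.map s) hmemK
  have h1 : Tendsto s U (𝓝 x) := hx
  have h2 : Tendsto (fun w => φ (s w)) U (𝓝 (φ x)) := (hφc.tendsto x).comp h1
  have h3 : Tendsto (fun w => φ (s w)) U (𝓝 z) := by
    refine Tendsto.congr' ?_ (tendsto_id.mono_left hU : Tendsto id (U : Filter ℂ) (𝓝 z))
    filter_upwards [hball] with w hw
    exact (hsφ w hw).symm
  have h4 : φ x = z := tendsto_nhds_unique h2 h3
  have h5 : Tendsto (fun w => g (s w)) U (𝓝 (g x)) := (hgc.tendsto x).comp h1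
  have h6 : desc h g z = g x := by rw [← h4]; exact desc_phi h g hg x
  rw [h6]
  refine h5.congr' ?_
  filter_upwards [hball] with w hw
  rw [desc, dif_pos hw, hs]
  simp only [dif_pos hw]

theorem chart_diff (g : X → ℂ) (hg : MDifferentiable 𝓘(ℂ) 𝓘(ℂ) g) (x : X) :
    DifferentiableOn ℂ (g ∘ (chartAt ℂ x).symm) (chartAt ℂ x).target := by
  rw [← mdifferentiableOn_iff_differentiableOn]
  apply hg.comp_mdifferentiableOn
  exact mdifferentiableOn_atlas_symm (chart_mem_atlas ℂ x)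

theorem chart_deriv (g : X → ℂ) (hg : MDifferentiable 𝓘(ℂ) 𝓘(ℂ) g) (x : X)
    (hne : mfderiv 𝓘(ℂ) 𝓘(ℂ) g x ≠ 0) :
    deriv (g ∘ (chartAt ℂ x).symm) (chartAt ℂ x x) ≠ 0 := by
  intro h0
  apply hne
  have h1 : mfderiv 𝓘(ℂ) 𝓘(ℂ) g x = fderiv ℂ (g ∘ (chartAt ℂ x).symm) (chartAt ℂ x x) := by
    rw [(hg x).mfderiv]
    simp [writtenInExtChartAt, extChartAt, fderivWithin_univ]
  have h2 : fderiv ℂ (g ∘ (chartAt ℂ x).symm) (chartAt ℂ x x) = 0 := by
    ext
    simpa using h0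
  rw [h1, h2]
  rfl

theorem desc_diffAt (h : TwoSheeted φ σ ϑ B) (g : X → ℂ) (hgd : MDifferentiable 𝓘(ℂ) 𝓘(ℂ) g)
    (hg : ∀ x, g (σ x) = g x) {z : ℂ} (hz : z ∈ ball (0 : ℂ) 1)
    (hne : mfderiv 𝓘(ℂ) 𝓘(ℂ) φ (sect h z hz) ≠ 0) : DifferentiableAt ℂ (desc h g) z := by
  set x := sect h z hz with hx
  set e := chartAt ℂ x with he
  set p := e x with hp
  have hpt : p ∈ e.target := e.map_source (mem_chart_source ℂ x)
  have hφd := chart_diff φ h.hol x
  have hgd' := chart_diff g hgd x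
  have hnhds : e.target ∈ 𝓝 p := e.open_target.mem_nhds hpt
  have han : AnalyticAt ℂ (φ ∘ e.symm) p := hφd.analyticAt hnhds
  have hstrict : HasStrictDerivAt (φ ∘ e.symm) (deriv (φ ∘ e.symm) p) p :=
    han.hasStrictDerivAt
  have hd0 : deriv (φ ∘ e.symm) p ≠ 0 := chart_deriv φ h.hol x hne
  have hval : (φ ∘ e.symm) p = z := by
    simp only [Function.comp, hp]
    rw [e.left_inv (mem_chart_source ℂ x)]
    exact phi_sect h z hz
  set inv := hstrict.localInverse (φ ∘ e.symm) _ p hd0 with hinv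
  have hinvd : HasStrictDerivAt inv (deriv (φ ∘ e.symm) p)⁻¹ ((φ ∘ e.symm) p) :=
    hstrict.to_localInverse hd0
  have hinvp : inv ((φ ∘ e.symm) p) = p := by
    rw [hinv]
    exact HasStrictFDerivAt.localInverse_apply_image _
  have hright : ∀ᶠ w in 𝓝 ((φ ∘ e.symm) p), (φ ∘ e.symm) (inv w) = w :=
    HasStrictFDerivAt.eventually_right_inverse _
  rw [hval] at hinvd hinvp hright
  have hcomp : DifferentiableAt ℂ (fun w => (g ∘ e.symm) (inv w)) z := by
    have h1 : DifferentiableAt ℂ (g ∘ e.symm) (inv z) := by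
      rw [hinvp]
      exact (hgd' p hpt).differentiableAt hnhds
    exact DifferentiableAt.comp (g := g ∘ e.symm) (f := inv) z h1
      hinvd.hasDerivAt.differentiableAt
  refine hcomp.congr_of_eventuallyEq ?_
  filter_upwards [hright] with w hw
  have h2 : desc h g (φ (e.symm (inv w))) = g (e.symm (inv w)) := desc_phi h g hg _
  simp only [Function.comp] at hw ⊢
  rw [hw] at h2
  exact h2

/-- **Descent.** Even holomorphic functions on `X` come from holomorphic functions on the disc. -/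
theorem desc_differentiableOn (h : TwoSheeted φ σ ϑ B) (g : X → ℂ)
    (hgd : MDifferentiable 𝓘(ℂ) 𝓘(ℂ) g) (hg : ∀ x, g (σ x) = g x) :
    DifferentiableOn ℂ (desc h g) (ball 0 1) := by
  obtain ⟨ι, a, -, -, hrange, hB⟩ := h.branch
  intro z hz
  apply DifferentiableAt.differentiableWithinAt
  have hc := desc_continuousOn h g hgd.continuous hg
  apply AnalyticAt.differentiableAt
  apply Complex.analyticAt_of_differentiable_on_punctured_nhds_of_continuousAt
  · filter_upwards [range_isolated hB hz] with w hw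
    apply desc_diffAt h g hgd hg hw.1
    intro h0
    apply hw.2
    rw [hrange]
    exact ⟨_, h0, phi_sect h w hw.1⟩
  · exact hc.continuousAt (isOpen_ball.mem_nhds hz)

end Surface

end Pool.Agent.W770.QP
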