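import Pool.Agent.W770.QP.Frost
import Pool.Agent.W770.QP.Descent

set_option autoImplicit false

namespace Pool.Agent.W770.QP

set_option linter.unusedSectionVars false

open Complex Metric Set Filter Topology MeasureTheory Real
open scoped Manifold ContDiff ComplexConjugate ENNReal

/-- the use of Jensen's inequality -/
theorem jensen_use {e : ℂ → ℂ} (he : DifferentiableOn ℂ e (ball 0 1)) {N : ℂ → ℂ} {K : ℕ} {C : ℝ}
    (hC : 1 ≤ C) (hN : ∀ z ∈ ball (0:ℂ) 1, ‖N z‖ ≤ 1)
    (heN : ∀ z ∈ ball (0:ℂ) 1, ‖e z‖ * ‖N z‖ ^ K ≤ C) {w : ℂ} (hw : ‖w‖ < 1) {r : ℝ} (hr0 : 0 < r)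
    (hr1 : r < 1) (hmeas : Measurable (fun t : ℝ => ‖N (mob w (circleMap 0 r t))‖)) {δ : ℝ}
    (hδ : 0 ≤ δ) (hH : ∫⁻ t in Ioc (0:ℝ) (2 * π), LL ‖N (mob w (circleMap 0 r t))‖ ≤
      ENNReal.ofReal (2 * π * δ)) : Real.log ‖e w‖ ≤ Real.log C + K * δ := by
  have hπ : (0:ℝ) < 2 * π := by positivity
  have hlogC : 0 ≤ Real.log C := Real.log_nonneg hC
  by_cases h0 : e w = 0
  · rw [h0, norm_zero, Real.log_zero]
    positivity
  have hf : DifferentiableOn ℂ (fun z => e (mob w z)) (ball 0 1) :=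
    he.comp (mob_diff hw) (mob_maps hw)
  have han : AnalyticOnNhd ℂ (fun z => e (mob w z)) (closedBall 0 r) :=
    (hf.analyticOnNhd isOpen_ball).mono (closedBall_sub hr1)
  have hj := jensen_le hr0 han (by simpa only [mob_zero] using h0)
  simp only [mob_zero] at hj
  refine hj.trans ?_
  have hne : ∫⁻ t in Ioc (0:ℝ) (2 * π), LL ‖N (mob w (circleMap 0 r t))‖ ≠ ⊤ :=
    (hH.trans_lt ENNReal.ofReal_lt_top).ne
  have hLm : Measurable (fun t : ℝ => LL ‖N (mob w (circleMap 0 r t))‖) := LL_measurable.comp hmeas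
  have hint : IntegrableOn (fun t : ℝ => (LL ‖N (mob w (circleMap 0 r t))‖).toReal)
      (Ioc (0:ℝ) (2 * π)) :=
    integrable_toReal_of_lintegral_ne_top hLm.aemeasurable hne
  have hfin := ae_lt_top hLm hne
  have hcirc : IntervalIntegrable (fun t => Real.log ‖e (mob w (circleMap 0 r t))‖) volume
      0 (2 * π) := by
    have : CircleIntegrable (fun z => Real.log ‖e (mob w z)‖) 0 r := by
      apply MeromorphicOn.circleIntegrable_log_norm (f := fun z => e (mob w z))
      rw [abs_of_pos hr0]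
      exact (han.mono sphere_subset_closedBall).meromorphicOn
    exact this
  have hle : ∫ t in (0:ℝ)..2 * π, Real.log ‖e (mob w (circleMap 0 r t))‖ ≤
      ∫ t in (0:ℝ)..2 * π, (Real.log C + K * (LL ‖N (mob w (circleMap 0 r t))‖).toReal) := by
    rw [intervalIntegral.integral_of_le hπ.le, intervalIntegral.integral_of_le hπ.le]
    apply integral_mono_ae
    · exact (intervalIntegrable_iff_integrableOn_Ioc_of_le hπ.le).1 hcirc
    · exact (integrable_const _).add (hint.const_mul _)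
    · filter_upwards [hfin] with t ht
      have hm : mob w (circleMap 0 r t) ∈ ball (0:ℂ) 1 := mob_maps hw (circle_mem hr0 hr1 t)
      set z := mob w (circleMap 0 r t) with hz
      have hNz : ‖N z‖ ≠ 0 := by
        intro h
        rw [h, LL, if_pos rfl] at ht
        exact lt_irrefl _ ht
      have hNpos : 0 < ‖N z‖ := lt_of_le_of_ne (norm_nonneg _) (Ne.symm hNz)
      have hlogN : Real.log ‖N z‖ ≤ 0 := Real.log_nonpos (norm_nonneg _) (hN z hm)
      have hLL : (LL ‖N z‖).toReal = -Real.log ‖N z‖ := by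
        rw [LL, if_neg hNz, ENNReal.toReal_ofReal (by linarith)]
      rw [hLL]
      by_cases hez : e z = 0
      · rw [hez, norm_zero, Real.log_zero]
        have : 0 ≤ (K:ℝ) * -Real.log ‖N z‖ := mul_nonneg (Nat.cast_nonneg _) (by linarith)
        linarith
      · have hez' : ‖e z‖ ≠ 0 := norm_ne_zero_iff.2 hez
        have h1 : Real.log (‖e z‖ * ‖N z‖ ^ K) ≤ Real.log C :=
          Real.log_le_log (by positivity) (heN z hm)
        rw [Real.log_mul hez' (by positivity), Real.log_pow] at h1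
        linarith
  have hval : ∫ t in (0:ℝ)..2 * π, (Real.log C + K * (LL ‖N (mob w (circleMap 0 r t))‖).toReal) ≤
      2 * π * (Real.log C + K * δ) := by
    have hI : IntervalIntegrable (fun t : ℝ => (K:ℝ) * (LL ‖N (mob w (circleMap 0 r t))‖).toReal)
        volume 0 (2 * π) :=
      (intervalIntegrable_iff_integrableOn_Ioc_of_le hπ.le).2 (hint.const_mul _)
    rw [intervalIntegral.integral_add intervalIntegrable_const hI,
      intervalIntegral.integral_const, intervalIntegral.integral_const_mul,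
      intervalIntegral.integral_of_le hπ.le, integral_toReal hLm.aemeasurable hfin]
    have h2 : (∫⁻ t in Ioc (0:ℝ) (2 * π), LL ‖N (mob w (circleMap 0 r t))‖).toReal ≤
        2 * π * δ := by
      have := ENNReal.toReal_mono ENNReal.ofReal_ne_top hH
      rwa [ENNReal.toReal_ofReal (by positivity)] at this
    rw [sub_zero, smul_eq_mul]
    have h3 : (0:ℝ) ≤ K := Nat.cast_nonneg _
    nlinarith
  unfold circleAverage
  rw [smul_eq_mul]
  calc (2 * π)⁻¹ * ∫ t in (0:ℝ)..2 * π, Real.log ‖e (mob w (circleMap 0 r t))‖ ≤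
      (2 * π)⁻¹ * (2 * π * (Real.log C + K * δ)) :=
        mul_le_mul_of_nonneg_left (hle.trans hval) (by positivity)
    _ = Real.log C + K * δ := by field_simp

theorem blaschke_lt {ι : Type} {a : ι → ℂ} {B : ℂ → ℂ} (h : IsBlaschkeZeros a B) (i : ι) {z : ℂ}
    (hz : ‖z‖ < 1) : ‖B z‖ < 1 := by
  classical
  obtain ⟨-, ha, -, c, hc, hprod⟩ := h
  have h1 := hprod z (by rwa [mem_ball_zero_iff])
  have h1' : Tendsto (fun G : Finset ι => ∏ i ∈ G, factor (a i) z) atTop (𝓝 (c * B z)) := by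
    simpa [HasProd] using h1
  have h2 := h1'.norm
  rw [norm_mul, hc, one_mul] at h2
  refine lt_of_le_of_lt ?_ (factor_lt (ha i) hz)
  refine le_of_tendsto h2 ?_
  filter_upwards [eventually_ge_atTop {i}] with G hG
  rw [← Finset.prod_sdiff hG, norm_mul, Finset.prod_singleton]
  have h3 := prod_norm_le_one ha (G \ {i}) hz
  nlinarith [norm_nonneg (factor (a i) z)]

/-- the norm function on the disc, `z = φ(x)`, `b = ϑ(x)²` -/
noncomputable def NN (l z b : ℂ) : ℂ :=
  ((2 * l - z) ^ 2 - b * (l - 2 * z) ^ 2) /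
    ((2 - conj l * z) ^ 2 - b * (1 - 2 * (conj l * z)) ^ 2)

/-- the inner function `z (1/2 - v) / (1 - v / 2)` -/
noncomputable def psi (z v : ℂ) : ℂ := z * tau (1 / 2) v

theorem half_lt : ‖(1 / 2 : ℂ)‖ < 1 := by norm_num

theorem psi_lt {z v : ℂ} (hz : ‖z‖ < 1) (hv : ‖v‖ < 1) : ‖psi z v‖ < 1 := by
  rw [psi, norm_mul]
  have h1 := tau_lt half_lt hv
  nlinarith [norm_nonneg z, norm_nonneg (tau (1 / 2) v)]

theorem tau_half_den {v : ℂ} (hv : ‖v‖ < 1) : (2 - v) ≠ 0 := by
  intro h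
  have : v = 2 := by linear_combination -h
  rw [this] at hv
  norm_num at hv

theorem tau_half {v : ℂ} (hv : ‖v‖ < 1) : tau (1 / 2) v = (1 - 2 * v) / (2 - v) := by
  have h1 := tau_half_den hv
  have h2 : (1 - v / 2) ≠ 0 := by
    intro h
    apply h1
    linear_combination 2 * h
  have h3 : conj (1 / 2 : ℂ) = 1 / 2 := by
    have : ((1 / 2 : ℂ)) = ((1 / 2 : ℝ) : ℂ) := by push_cast; rfl
    rw [this, Complex.conj_ofReal]
  rw [tau, h3, div_eq_div_iff _ h1]
  · ring
  · intro h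
    apply h2
    linear_combination h

/-- the norm of `tau l (psi)` -/
theorem NN_eq {l z v : ℂ} (hl : ‖l‖ < 1) (hz : ‖z‖ < 1) (hv : ‖v‖ < 1) :
    NN l z (v ^ 2) = tau l (psi z v) * tau l (psi z (-v)) := by
  have hv' : ‖-v‖ < 1 := by rwa [norm_neg]
  have d1 := tau_half_den hv
  have d2 := tau_half_den hv'
  have e1 : 1 - conj l * psi z v ≠ 0 := fac_den hl (psi_lt hz hv)
  have e2 : 1 - conj l * psi z (-v) ≠ 0 := fac_den hl (psi_lt hz hv')
  rw [tau, tau, div_mul_div_comm, NN]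
  rw [psi, tau_half hv] at e1
  rw [psi, tau_half hv'] at e2
  rw [psi, psi, tau_half hv, tau_half hv']
  have f1 : (l - z * ((1 - 2 * v) / (2 - v))) * (l - z * ((1 - 2 * -v) / (2 - -v))) =
      ((2 * l - z) ^ 2 - v ^ 2 * (l - 2 * z) ^ 2) / ((2 - v) * (2 - -v)) := by
    field_simp
    ring
  have f2 : (1 - conj l * (z * ((1 - 2 * v) / (2 - v)))) *
      (1 - conj l * (z * ((1 - 2 * -v) / (2 - -v)))) =
      ((2 - conj l * z) ^ 2 - v ^ 2 * (1 - 2 * (conj l * z)) ^ 2) / ((2 - v) * (2 - -v)) := by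
    field_simp
    ring
  rw [f1, f2, div_div_div_cancel_right₀ (mul_ne_zero d1 d2)]

theorem one_sub_psi {z v : ℂ} (hz : ‖z‖ < 1) (hv : ‖v‖ < 1) :
    1 - ‖psi z v‖ ≤ (1 - ‖z‖) + 4 * (1 - ‖v ^ 2‖) := by
  have h1 := one_sub_factor_le' half_lt hv
  have h2 := tau_lt half_lt hv
  rw [← tau_norm] at h1
  have h3 : 1 / (1 - ‖(1 / 2 : ℂ)‖) ^ 2 = 4 := by norm_num
  rw [h3] at h1
  rw [psi, norm_mul, norm_pow]
  nlinarith [norm_nonneg z, norm_nonneg (tau (1 / 2) v)]

end Pool.Agent.W770.QP
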