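import Mathlib

set_option autoImplicit false

/-! Definitions for the quasi-proper maps of two-sheeted coverings of the disc. -/

namespace Pool.Agent.W770.QP

open Complex Metric Set Filter Topology
open scoped Manifold ContDiff ComplexConjugate ENNReal

/-- The factor with zero `a` of a Blaschke product: `z` if `a = 0`, and
`(|a| / a) (a - z) / (1 - conj a z)` otherwise. -/
noncomputable def factor (a z : ℂ) : ℂ :=
  if a = 0 then z else (‖a‖ / a) * ((a - z) / (1 - conj a * z))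

/-- `b` is on the open unit disc a (finite or infinite) Blaschke product, up to a unimodular
constant, whose zeros, repeated according to multiplicity, are the `a i`, `i ∈ ι`. -/
def IsBlaschkeZeros {ι : Type} (a : ι → ℂ) (b : ℂ → ℂ) : Prop :=
  Countable ι ∧ (∀ i, ‖a i‖ < 1) ∧ Summable (fun i => 1 - ‖a i‖) ∧
    ∃ c : ℂ, ‖c‖ = 1 ∧ ∀ z ∈ ball (0 : ℂ) 1, HasProd (fun i => factor (a i) z) (c * b z)

/-- `b` is a finite or infinite Blaschke product on the unit disc. -/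
def IsBlaschke (b : ℂ → ℂ) : Prop := ∃ (ι : Type) (a : ι → ℂ), IsBlaschkeZeros a b

/-- `u` is an inner function on the unit disc: holomorphic, bounded by one, with radial limits of
modulus one almost everywhere. -/
def IsInner (u : ℂ → ℂ) : Prop :=
  DifferentiableOn ℂ u (ball 0 1) ∧ (∀ z ∈ ball (0 : ℂ) 1, ‖u z‖ ≤ 1) ∧
    ∀ᵐ t : ℝ, Tendsto (fun r : ℝ => ‖u (r * exp (t * I))‖) (𝓝[<] 1) (𝓝 1)

section Surface

variable {X : Type} [TopologicalSpace X] [ChartedSpace ℂ X]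

/-- The data of the problem: `φ : X → 𝔻` is a proper holomorphic two-sheeted map with sheet
interchange `σ`, the map `φ` has infinitely many branch values, they satisfy the Blaschke
condition, `B` is the Blaschke product with simple zeros at the branch values, and `ϑ` is a
holomorphic square root of `B ∘ φ` which changes sign under `σ`. -/
structure TwoSheeted (φ : X → ℂ) (σ : X → X) (ϑ : X → ℂ) (B : ℂ → ℂ) : Prop where
  hol : MDifferentiable 𝓘(ℂ) 𝓘(ℂ) φ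
  mem : ∀ x, φ x ∈ ball (0 : ℂ) 1
  proper : ∀ K : Set ℂ, K ⊆ ball 0 1 → IsCompact K → IsCompact (φ ⁻¹' K)
  sigma_hol : MDifferentiable 𝓘(ℂ) 𝓘(ℂ) σ
  sigma_sq : ∀ x, σ (σ x) = x
  sigma_ne : σ ≠ id
  fibre : ∀ z ∈ ball (0 : ℂ) 1, ∃ x, φ ⁻¹' {z} = {x, σ x}
  branch : ∃ (ι : Type) (a : ι → ℂ), Infinite ι ∧ Function.Injective a ∧
    range a = φ '' {x | mfderiv 𝓘(ℂ) 𝓘(ℂ) φ x = 0} ∧ IsBlaschkeZeros a B
  theta_hol : MDifferentiable 𝓘(ℂ) 𝓘(ℂ) ϑ
  theta_sq : ∀ x, ϑ x ^ 2 = B (φ x)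
  theta_sigma : ∀ x, ϑ (σ x) = - ϑ x

/-- `θ : X → 𝔻` is quasi-proper: holomorphic, with `sup |f| = sup |θ f|` (in `[0, ∞]`) for every
holomorphic `f` on `X`. -/
def QuasiProper (θ : X → ℂ) : Prop :=
  MDifferentiable 𝓘(ℂ) 𝓘(ℂ) θ ∧ (∀ x, θ x ∈ ball (0 : ℂ) 1) ∧
    ∀ f : X → ℂ, MDifferentiable 𝓘(ℂ) 𝓘(ℂ) f → ⨆ x, ‖f x‖ₑ = ⨆ x, ‖θ x * f x‖ₑ

/-- The class `𝓛` of the problem: (i) `b ∘ φ` with `b` a Blaschke product; (ii) `ϑ`;
(iii) `b ∘ ((u ∘ φ) ϑ)` with `b` a Blaschke product with zeros `a i` and `u` an inner function such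
that `b^* (u² B)` is a Blaschke product, `b^*` being the Blaschke product with zeros `(a i)²`. -/
def InL (φ : X → ℂ) (ϑ : X → ℂ) (B : ℂ → ℂ) (f : X → ℂ) : Prop :=
  (∃ b : ℂ → ℂ, IsBlaschke b ∧ ∀ x, f x = b (φ x)) ∨
  (∀ x, f x = ϑ x) ∨
  (∃ (ι : Type) (a : ι → ℂ) (b bs u : ℂ → ℂ), IsBlaschkeZeros a b ∧ IsInner u ∧
    IsBlaschkeZeros (fun i => a i ^ 2) bs ∧ IsBlaschke (fun z => bs (u z ^ 2 * B z)) ∧
    ∀ x, f x = b (u (φ x) * ϑ x))

/-- `θ` is a finite or infinite product of functions with the property `P`; an infinite product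
is only required to converge at every point. -/
def IsProductOf (P : (X → ℂ) → Prop) (θ : X → ℂ) : Prop :=
  (∃ l : List (X → ℂ), (∀ f ∈ l, P f) ∧ ∀ x, θ x = (l.map fun f => f x).prod) ∨
  (∃ f : ℕ → X → ℂ, (∀ n, P (f n)) ∧
    ∀ x, Tendsto (fun n => ∏ i ∈ Finset.range n, f i x) atTop (𝓝 (θ x)))

end Surface

end Pool.Agent.W770.QP
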