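import Pool.Agent.W770.QP.Mean2

set_option autoImplicit false

namespace Pool.Agent.W770.QP

open Complex Metric Set Filter Topology MeasureTheory Real
open scoped ComplexConjugate ENNReal

/-- `-log x` as an extended nonnegative number, `∞` at `0` -/
noncomputable def LL (x : ℝ) : ℝ≥0∞ := if x = 0 then ⊤ else ENNReal.ofReal (-Real.log x)

theorem LL_measurable : Measurable LL := by
  unfold LL
  refine Measurable.ite (measurableSet_singleton 0) measurable_const ?_
  exact (Real.measurable_log.neg).ennreal_ofReal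

theorem LL_mul_le {x y : ℝ} :
    LL (x * y) ≤ LL x + LL y := by
  by_cases h1 : x = 0
  · simp [LL, h1]
  by_cases h2 : y = 0
  · simp [LL, h2]
  have h3 : x * y ≠ 0 := mul_ne_zero h1 h2
  rw [LL, LL, LL, if_neg h1, if_neg h2, if_neg h3, Real.log_mul h1 h2, neg_add]
  exact ENNReal.ofReal_add_le

/-- the Moebius map with zero `l` -/
noncomputable def tau (l p : ℂ) : ℂ := (l - p) / (1 - conj l * p)

theorem tau_norm (l p : ℂ) : ‖tau l p‖ = ‖factor l p‖ := by
  rw [norm_factor, tau]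

theorem tau_lt {l p : ℂ} (hl : ‖l‖ < 1) (hp : ‖p‖ < 1) : ‖tau l p‖ < 1 := by
  rw [tau_norm]; exact factor_lt hl hp

theorem tau_eq_zero {l p : ℂ} (hl : ‖l‖ < 1) (hp : ‖p‖ < 1) : tau l p = 0 ↔ l = p := by
  rw [tau, div_eq_zero_iff, sub_eq_zero]
  constructor
  · rintro (h | h)
    · exact h
    · exact absurd h (fac_den hl hp)
  · exact Or.inl

theorem circle_ae_ne (p : ℂ) : ∀ᵐ α ∂(volume.restrict (Ioc (0:ℝ) (2 * π))),
    circleMap 0 (3 / 4) α ≠ p := by
  rw [ae_restrict_iff' measurableSet_Ioc]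
  have hsub : {α : ℝ | ¬ (α ∈ Ioc 0 (2 * π) → circleMap 0 (3 / 4) α ≠ p)}.Subsingleton := by
    intro α hα β hβ
    simp only [mem_ofPred_eq, Classical.not_imp, not_not] at hα hβ
    have h := injOn_circleMap_of_abs_sub_le (c := 0) (R := 3 / 4) (a := 0) (b := 2 * π)
      (by norm_num) (by rw [zero_sub, abs_neg, abs_of_pos (by positivity)])
    rw [uIoc_of_le (by positivity)] at h
    exact h hα.1 hβ.1 (hα.2.trans hβ.2.symm)
  rw [ae_iff]
  exact hsub.measure_zero _

/-- **Frostman's averaging.** -/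
theorem frostman {p : ℂ} (hp : ‖p‖ < 1) :
    ∫⁻ α in Ioc (0:ℝ) (2 * π), LL ‖tau (circleMap 0 (3 / 4) α) p‖ ≤
      ENNReal.ofReal (2 * π * (4 / 3 * (1 - ‖p‖))) := by
  set ρ : ℝ := 3 / 4 with hρ
  have hρ0 : 0 < ρ := by norm_num [hρ]
  have hπ : (0:ℝ) < 2 * π := by positivity
  have hnorm : ∀ α : ℝ, ‖circleMap 0 ρ α‖ = ρ := fun α => by
    rw [norm_circleMap_zero, abs_of_pos hρ0]
  have hlt : ∀ α : ℝ, ‖circleMap 0 ρ α‖ < 1 := fun α => by rw [hnorm]; norm_num [hρ]
  -- the two logarithms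
  have hI1 : IntervalIntegrable (fun α => Real.log ‖circleMap 0 ρ α - p‖) volume 0 (2 * π) :=
    circleIntegrable_log_norm_sub_const (a := p) (c := 0) ρ
  have hI2 : IntervalIntegrable (fun α => Real.log ‖circleMap 0 ρ α - ρ ^ 2 * p‖) volume 0 (2 * π) :=
    circleIntegrable_log_norm_sub_const (a := (ρ:ℂ) ^ 2 * p) (c := 0) ρ
  have hA1 : circleAverage (fun z => Real.log ‖z - p‖) 0 ρ =
      Real.log ρ + Real.posLog (ρ⁻¹ * ‖(0:ℂ) - p‖) :=
    circleAverage_log_norm_sub_const_eq_log_radius_add_posLog hρ0.ne'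
  have hA2 : circleAverage (fun z => Real.log ‖z - ρ ^ 2 * p‖) 0 ρ = Real.log ρ := by
    apply circleAverage_log_norm_sub_const_of_mem_closedBall
    rw [mem_closedBall_zero_iff, norm_mul, norm_pow, Complex.norm_real, Real.norm_of_nonneg hρ0.le,
      abs_of_pos hρ0, hρ]
    nlinarith [norm_nonneg p]
  set g : ℝ → ℝ := fun α => -Real.log ‖circleMap 0 ρ α - p‖ +
    (Real.log ‖circleMap 0 ρ α - ρ ^ 2 * p‖ - Real.log ρ) with hg
  have hgI : IntervalIntegrable g volume 0 (2 * π) := hI1.neg.add (hI2.sub intervalIntegrable_const)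
  have heq : ∀ α, circleMap 0 ρ α ≠ p → LL ‖tau (circleMap 0 ρ α) p‖ = ENNReal.ofReal (g α) ∧
      0 ≤ g α := by
    intro α hα
    have h1 : tau (circleMap 0 ρ α) p ≠ 0 := by
      rw [Ne, tau_eq_zero (hlt α) hp]
      exact hα
    have h2 : ‖1 - conj (circleMap 0 ρ α) * p‖ = ‖circleMap 0 ρ α - ρ ^ 2 * p‖ / ρ := by
      rw [eq_div_iff hρ0.ne']
      have h3 : (circleMap 0 ρ α) * conj (circleMap 0 ρ α) = (ρ:ℂ) ^ 2 := by
        rw [Complex.mul_conj, Complex.normSq_eq_norm_sq, hnorm]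
        push_cast
        rfl
      have h4 : circleMap 0 ρ α - ρ ^ 2 * p =
          circleMap 0 ρ α * (1 - conj (circleMap 0 ρ α) * p) := by
        rw [← h3]; ring
      rw [h4, norm_mul, hnorm, mul_comm]
    have h5 : circleMap 0 ρ α - ρ ^ 2 * p ≠ 0 := by
      intro h
      have h6 := fac_den (hlt α) hp
      rw [h, norm_zero, zero_div] at h2
      exact h6 (norm_eq_zero.1 h2)
    have h7 : -Real.log ‖tau (circleMap 0 ρ α) p‖ = g α := by
      rw [tau, norm_div, h2, Real.log_div (norm_ne_zero_iff.2 (sub_ne_zero.2 hα))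
        (div_ne_zero (norm_ne_zero_iff.2 h5) hρ0.ne'),
        Real.log_div (norm_ne_zero_iff.2 h5) hρ0.ne']
      simp only [hg]
      ring
    refine ⟨?_, ?_⟩
    · rw [LL, if_neg (norm_ne_zero_iff.2 h1), h7]
    · rw [← h7]
      have := Real.log_nonpos (norm_nonneg _) (tau_lt (hlt α) hp).le
      linarith
  have hae := circle_ae_ne p
  have hL : ∫⁻ α in Ioc (0:ℝ) (2 * π), LL ‖tau (circleMap 0 ρ α) p‖ =
      ∫⁻ α in Ioc (0:ℝ) (2 * π), ENNReal.ofReal (g α) := by
    apply lintegral_congr_ae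
    filter_upwards [hae] with α hα
    exact (heq α hα).1
  rw [hL, ← ofReal_integral_eq_lintegral_ofReal]
  · apply ENNReal.ofReal_le_ofReal
    rw [← intervalIntegral.integral_of_le hπ.le]
    have hcalc : ∫ α in (0:ℝ)..2 * π, g α =
        2 * π * (-(Real.log ρ + Real.posLog (ρ⁻¹ * ‖(0:ℂ) - p‖))) := by
      have e1 : ∫ α in (0:ℝ)..2 * π, Real.log ‖circleMap 0 ρ α - p‖ =
          2 * π * (Real.log ρ + Real.posLog (ρ⁻¹ * ‖(0:ℂ) - p‖)) := by
        rw [← hA1, circleAverage, smul_eq_mul]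
        field_simp
      have e2 : ∫ α in (0:ℝ)..2 * π, Real.log ‖circleMap 0 ρ α - ρ ^ 2 * p‖ =
          2 * π * Real.log ρ := by
        rw [← hA2, circleAverage, smul_eq_mul]
        field_simp
      have e3 : ∫ α in (0:ℝ)..2 * π, g α =
          (∫ α in (0:ℝ)..2 * π, -Real.log ‖circleMap 0 ρ α - p‖) +
          ((∫ α in (0:ℝ)..2 * π, Real.log ‖circleMap 0 ρ α - ρ ^ 2 * p‖) -
            ∫ _ in (0:ℝ)..2 * π, Real.log ρ) := by
        have hI1' : IntervalIntegrable (fun α => -Real.log ‖circleMap 0 ρ α - p‖) volume 0 (2 * π) :=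
          hI1.neg
        have hI2' : IntervalIntegrable (fun α => Real.log ‖circleMap 0 ρ α - ρ ^ 2 * p‖ -
          Real.log ρ) volume 0 (2 * π) := hI2.sub intervalIntegrable_const
        rw [← intervalIntegral.integral_sub hI2 intervalIntegrable_const,
          ← intervalIntegral.integral_add hI1' hI2']
      rw [e3, intervalIntegral.integral_neg, e1, e2, intervalIntegral.integral_const]
      simp
      ring
    rw [hcalc]
    apply mul_le_mul_of_nonneg_left _ hπ.le
    rw [zero_sub, norm_neg]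
    have hlog : -Real.log ρ ≤ 1 / 3 := by
      rw [← Real.log_inv, hρ]
      have := Real.log_le_sub_one_of_pos (show (0:ℝ) < (3 / 4)⁻¹ by norm_num)
      norm_num at this ⊢
      linarith
    rcases le_or_gt ‖p‖ ρ with h | h
    · have h1 : 0 ≤ Real.posLog (ρ⁻¹ * ‖p‖) := Real.posLog_nonneg
      rw [hρ] at h
      linarith
    · have h0 : 0 < ‖p‖ := hρ0.trans h
      have h1 : Real.log (ρ⁻¹ * ‖p‖) ≤ Real.posLog (ρ⁻¹ * ‖p‖) := (by rw [Real.posLog_def]; exact le_max_right _ _)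
      rw [Real.log_mul (inv_ne_zero hρ0.ne') h0.ne', Real.log_inv] at h1
      have h2 : -Real.log ‖p‖ ≤ 4 / 3 * (1 - ‖p‖) := by
        rw [← Real.log_inv]
        have h3 := Real.log_le_sub_one_of_pos (inv_pos.2 h0)
        have h4 : ‖p‖⁻¹ - 1 ≤ 4 / 3 * (1 - ‖p‖) := by
          rw [hρ] at h
          have h5 : ‖p‖⁻¹ - 1 = (1 - ‖p‖) / ‖p‖ := by field_simp
          rw [h5, div_le_iff₀ h0]
          nlinarith
        linarith
      linarith
  · rw [← IntegrableOn, ← intervalIntegrable_iff_integrableOn_Ioc_of_le hπ.le]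
    exact hgI
  · filter_upwards [hae] with α hα
    exact (heq α hα).2

end Pool.Agent.W770.QP
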