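import Pool.Agent.W770.QP.Select

set_option autoImplicit false

namespace Pool.Agent.W770.QP

set_option linter.unusedSectionVars false

open Complex Metric Set Filter Topology MeasureTheory Real
open scoped Manifold ContDiff ComplexConjugate ENNReal

section Surface

variable {X : Type} [TopologicalSpace X] [ChartedSpace ℂ X] [IsManifold 𝓘(ℂ) ⊤ X]
  {φ : X → ℂ} {σ : X → X} {ϑ : X → ℂ} {B : ℂ → ℂ}

theorem comp_mdiff {F : ℂ → ℂ} (hF : DifferentiableOn ℂ F (ball 0 1)) {g : X → ℂ}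
    (hg : MDifferentiable 𝓘(ℂ) 𝓘(ℂ) g) (hgm : ∀ x, ‖g x‖ < 1) :
    MDifferentiable 𝓘(ℂ) 𝓘(ℂ) (fun x => F (g x)) := by
  intro x
  have h1 : DifferentiableAt ℂ F (g x) :=
    hF.differentiableAt (isOpen_ball.mem_nhds (by rw [mem_ball_zero_iff]; exact hgm x))
  exact MDifferentiableAt.comp (g := F) (f := g) x h1.mdifferentiableAt (hg x)

theorem tau_diff {l : ℂ} (hl : ‖l‖ < 1) : DifferentiableOn ℂ (tau l) (ball 0 1) := by
  intro z hz
  rw [mem_ball_zero_iff] at hz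
  unfold tau
  have h1 : DifferentiableWithinAt ℂ (fun p : ℂ => l - p) (ball 0 1) z := by fun_prop
  have h2 : DifferentiableWithinAt ℂ (fun p : ℂ => 1 - conj l * p) (ball 0 1) z := by fun_prop
  exact h1.div h2 (fac_den hl hz)

/-- the quasi-proper map -/
noncomputable def tht (φ ϑ : X → ℂ) (l : ℂ) (x : X) : ℂ := tau l (psi (φ x) (ϑ x))

theorem tht_mdiff (h : TwoSheeted φ σ ϑ B) {l : ℂ} (hl : ‖l‖ < 1) :
    MDifferentiable 𝓘(ℂ) 𝓘(ℂ) (tht φ ϑ l) := by
  have h1 : MDifferentiable 𝓘(ℂ) 𝓘(ℂ) (fun x => tau (1 / 2) (ϑ x)) :=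
    comp_mdiff (tau_diff half_lt) h.theta_hol (theta_lt h)
  have h2 : MDifferentiable 𝓘(ℂ) 𝓘(ℂ) (fun x => psi (φ x) (ϑ x)) := by
    unfold psi
    exact h.hol.mul h1
  exact comp_mdiff (tau_diff hl) h2 (fun x => psi_lt (phi_lt h x) (theta_lt h x))

theorem tht_lt (h : TwoSheeted φ σ ϑ B) {l : ℂ} (hl : ‖l‖ < 1) (x : X) : ‖tht φ ϑ l x‖ < 1 :=
  tau_lt hl (psi_lt (phi_lt h x) (theta_lt h x))

theorem NN_tht (h : TwoSheeted φ σ ϑ B) {l : ℂ} (hl : ‖l‖ < 1) (x : X) :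
    NN l (φ x) (B (φ x)) = tht φ ϑ l x * tht φ ϑ l (σ x) := by
  rw [← h.theta_sq, NN_eq hl (phi_lt h x) (theta_lt h x), tht, tht, phi_sigma h, h.theta_sigma]

theorem NN_le (h : TwoSheeted φ σ ϑ B) {l : ℂ} (hl : ‖l‖ < 1) {z : ℂ} (hz : z ∈ ball (0:ℂ) 1) :
    ‖NN l z (B z)‖ ≤ 1 := by
  have h1 := NN_tht h hl (sect h z hz)
  rw [phi_sect h z hz] at h1
  rw [h1, norm_mul]
  have h2 := tht_lt h hl (sect h z hz)
  have h3 := tht_lt h hl (σ (sect h z hz))
  nlinarith [norm_nonneg (tht φ ϑ l (sect h z hz)), norm_nonneg (tht φ ϑ l (σ (sect h z hz)))]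

theorem single_meas (h : TwoSheeted φ σ ϑ B) (l : ℂ) {w : ℂ} (hw : ‖w‖ < 1) {r : ℝ} (hr0 : 0 < r)
    (hr1 : r < 1) : Measurable (fun t : ℝ => ‖NN l
      (mob w (circleMap 0 r t)) (B (mob w (circleMap 0 r t)))‖) := by
  have a3 : Measurable (fun t : ℝ => mob w (circleMap 0 r t)) :=
    (cont_mob (f := id) hw hr0 hr1 continuousOn_id).measurable
  have a4 : Measurable (fun t : ℝ => B (mob w (circleMap 0 r t))) :=
    (cont_mob hw hr0 hr1 (B_diff h).continuousOn).measurable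
  unfold NN
  exact ((((a3.const_sub (2 * l)).pow_const 2).sub (a4.mul (((a3.const_mul 2).const_sub l).pow_const 2))).div
    ((((a3.const_mul (conj l)).const_sub 2).pow_const 2).sub
      (a4.mul ((((a3.const_mul (conj l)).const_mul 2).const_sub 1).pow_const 2)))).norm

/-- the parameter is good -/
def Good (B : ℂ → ℂ) (l : ℂ) (s : ℕ → ℂ) : Prop := ∀ n : ℕ, ∀ δ : ℝ, 0 < δ → ∃ r, 0 < r ∧ r < 1 ∧
      ∫⁻ t in Ioc (0:ℝ) (2 * π), LL ‖NN l
        (mob (s n) (circleMap 0 r t)) (B (mob (s n) (circleMap 0 r t)))‖ ≤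
        ENNReal.ofReal (2 * π * δ)

theorem even_bound (h : TwoSheeted φ σ ϑ B) {l : ℂ} (hl : ‖l‖ < 1) {s : ℕ → ℂ}
    (hs : ∀ n, ‖s n‖ < 1) (hdense : ball (0:ℂ) 1 ⊆ closure (range s)) (hgood : Good B l s)
    {g : X → ℂ} (hg : MDifferentiable 𝓘(ℂ) 𝓘(ℂ) g) (hev : ∀ x, g (σ x) = g x) {K : ℕ} {C : ℝ}
    (hC : 1 ≤ C) (hb : ∀ x, ‖g x‖ * ‖tht φ ϑ l x * tht φ ϑ l (σ x)‖ ^ K ≤ C) (x : X) :
    ‖g x‖ ≤ C := by
  have hd := desc_differentiableOn h g hg hev
  have hC0 : 0 < C := by linarith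
  have h1 : ∀ n, ‖desc h g (s n)‖ ≤ C := by
    intro n
    by_cases h0 : desc h g (s n) = 0
    · rw [h0, norm_zero]; exact hC0.le
    have hpos : 0 < ‖desc h g (s n)‖ := norm_pos_iff.2 h0
    have h2 : ∀ δ : ℝ, 0 < δ → Real.log ‖desc h g (s n)‖ ≤ Real.log C + K * δ := by
      intro δ hδ
      obtain ⟨r, hr0, hr1, hr⟩ := hgood n δ hδ
      refine jensen_use (N := fun z => NN l z (B z)) hd hC (fun z hz => NN_le h hl hz) ?_ (hs n)
        hr0 hr1 (single_meas h l (hs n) hr0 hr1) hδ.le hr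
      intro z hz
      have h3 := hb (sect h z hz)
      rw [← NN_tht h hl, phi_sect h z hz] at h3
      have h4 := desc_phi h g hev (sect h z hz)
      rw [phi_sect h z hz] at h4
      rwa [h4]
    have h5 : Real.log ‖desc h g (s n)‖ ≤ Real.log C := by
      by_contra hc
      push Not at hc
      have hK : (0:ℝ) ≤ K := Nat.cast_nonneg _
      have h6 := h2 ((Real.log ‖desc h g (s n)‖ - Real.log C) / (2 * (K + 1))) (by
        apply div_pos <;> linarith)
      have h7 : (K:ℝ) * ((Real.log ‖desc h g (s n)‖ - Real.log C) / (2 * (K + 1))) ≤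
          (Real.log ‖desc h g (s n)‖ - Real.log C) / 2 := by
        rw [mul_div_assoc', div_le_div_iff₀ (by linarith) (by norm_num)]
        nlinarith
      linarith
    exact (Real.log_le_log_iff hpos hC0).1 h5
  have hcl : ∀ z ∈ ball (0:ℂ) 1, ‖desc h g z‖ ≤ C := by
    intro z hz
    have hz' : z ∈ closure (range s) := hdense hz
    have hca : ContinuousAt (fun z => ‖desc h g z‖) z :=
      (hd.continuousOn.continuousAt (isOpen_ball.mem_nhds hz)).norm
    by_contra hc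
    push Not at hc
    have hev1 : ∀ᶠ w in 𝓝 z, C < ‖desc h g w‖ := hca.eventually (lt_mem_nhds hc)
    rw [mem_closure_iff_frequently] at hz'
    obtain ⟨w, ⟨n, rfl⟩, hw⟩ := (hz'.and_eventually hev1).exists
    exact absurd (h1 n) (not_le.2 hw)
  have := hcl (φ x) (h.mem x)
  rwa [desc_phi h g hev] at this

theorem key_bound (h : TwoSheeted φ σ ϑ B) {l : ℂ} (hl : ‖l‖ < 1) {s : ℕ → ℂ}
    (hs : ∀ n, ‖s n‖ < 1) (hdense : ball (0:ℂ) 1 ⊆ closure (range s)) (hgood : Good B l s)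
    {f : X → ℂ} (hf : MDifferentiable 𝓘(ℂ) 𝓘(ℂ) f) (hb : ∀ x, ‖tht φ ϑ l x * f x‖ ≤ 1) (x : X) :
    ‖f x‖ ≤ 1 := by
  have hfσ : MDifferentiable 𝓘(ℂ) 𝓘(ℂ) (fun x => f (σ x)) := hf.comp h.sigma_hol
  have hpow : ∀ (p : ℕ) (g : X → ℂ), MDifferentiable 𝓘(ℂ) 𝓘(ℂ) g →
      MDifferentiable 𝓘(ℂ) 𝓘(ℂ) (fun x => g x ^ p) := by
    intro p g hg
    have h1 : Differentiable ℂ (fun z : ℂ => z ^ p) := by fun_prop
    exact h1.mdifferentiable.comp hg
  have hG : ∀ p : ℕ, ∀ x, ‖f x ^ p + f (σ x) ^ p‖ ≤ 2 := by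
    intro p
    refine even_bound (K := p) (g := fun x => f x ^ p + f (σ x) ^ p) h hl hs hdense hgood
      ((hpow p f hf).add (hpow p _ hfσ)) ?_ (by norm_num) ?_
    · intro x
      simp only [h.sigma_sq]
      rw [add_comm]
    · intro x
      have e1 := hb x
      have e2 := hb (σ x)
      have t1 := (tht_lt h hl x).le
      have t2 := (tht_lt h hl (σ x)).le
      rw [norm_mul] at e1 e2
      rw [norm_mul]
      set A := ‖tht φ ϑ l x‖
      set A' := ‖tht φ ϑ l (σ x)‖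
      have hA : 0 ≤ A := norm_nonneg _
      have hA' : 0 ≤ A' := norm_nonneg _
      calc ‖f x ^ p + f (σ x) ^ p‖ * (A * A') ^ p ≤ (‖f x‖ ^ p + ‖f (σ x)‖ ^ p) * (A * A') ^ p := by
            apply mul_le_mul_of_nonneg_right _ (by positivity)
            rw [← norm_pow, ← norm_pow]
            exact norm_add_le _ _
        _ = (A * ‖f x‖) ^ p * A' ^ p + (A' * ‖f (σ x)‖) ^ p * A ^ p := by ring
        _ ≤ 1 * 1 + 1 * 1 := by
            apply add_le_add
            · exact mul_le_mul (pow_le_one₀ (by positivity) e1) (pow_le_one₀ hA' t2) (by positivity)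
                zero_le_one
            · exact mul_le_mul (pow_le_one₀ (by positivity) e2) (pow_le_one₀ hA t1) (by positivity)
                zero_le_one
        _ = 2 := by norm_num
  have hP : ∀ x, ‖f x * f (σ x)‖ ≤ 1 := by
    refine even_bound (K := 1) (g := fun x => f x * f (σ x)) h hl hs hdense hgood
      (hf.mul hfσ) ?_ le_rfl ?_
    · intro x
      simp only [h.sigma_sq]
      rw [mul_comm]
    · intro x
      have e1 := hb x
      have e2 := hb (σ x)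
      rw [norm_mul] at e1 e2
      rw [norm_mul, norm_mul, pow_one]
      calc ‖f x‖ * ‖f (σ x)‖ * (‖tht φ ϑ l x‖ * ‖tht φ ϑ l (σ x)‖) =
          (‖tht φ ϑ l x‖ * ‖f x‖) * (‖tht φ ϑ l (σ x)‖ * ‖f (σ x)‖) := by ring
        _ ≤ 1 * 1 := mul_le_mul e1 e2 (by positivity) zero_le_one
        _ = 1 := one_mul 1
  by_contra hc
  push Not at hc
  have h1 := hP x
  rw [norm_mul] at h1
  have h2 : ‖f (σ x)‖ ≤ 1 := by
    by_contra hc2
    push Not at hc2
    nlinarith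
  obtain ⟨p, hp⟩ := pow_unbounded_of_one_lt 3 hc
  have h3 := hG p x
  have h4 : ‖f x‖ ^ p - ‖f (σ x)‖ ^ p ≤ ‖f x ^ p + f (σ x) ^ p‖ := by
    rw [← norm_pow, ← norm_pow]
    have := norm_sub_norm_le (f x ^ p) (-(f (σ x) ^ p))
    rwa [norm_neg, sub_neg_eq_add] at this
  have h5 : ‖f (σ x)‖ ^ p ≤ 1 := pow_le_one₀ (norm_nonneg _) h2
  linarith

theorem quasi (h : TwoSheeted φ σ ϑ B) {l : ℂ} (hl : ‖l‖ < 1) {s : ℕ → ℂ}
    (hs : ∀ n, ‖s n‖ < 1) (hdense : ball (0:ℂ) 1 ⊆ closure (range s)) (hgood : Good B l s) :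
    QuasiProper (tht φ ϑ l) := by
  refine ⟨tht_mdiff h hl, fun x => ?_, fun f hf => le_antisymm ?_ ?_⟩
  · rw [mem_ball_zero_iff]
    exact tht_lt h hl x
  · by_cases htop : ⨆ x, ‖tht φ ϑ l x * f x‖ₑ = ⊤
    · rw [htop]; exact le_top
    refine iSup_le (fun x => ?_)
    refine ENNReal.le_of_forall_pos_le_add (fun ε hε _ => ?_)
    set S := ⨆ x, ‖tht φ ϑ l x * f x‖ₑ with hS
    have hne : S + ε ≠ ⊤ := ENNReal.add_ne_top.2 ⟨htop, ENNReal.coe_ne_top⟩
    set M : ℝ := (S + ε).toReal with hM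
    have hMpos : 0 < M := by
      apply ENNReal.toReal_pos _ hne
      have : (ε : ℝ≥0∞) ≠ 0 := by
        rw [Ne, ENNReal.coe_eq_zero]
        exact hε.ne'
      intro h0
      exact this (add_eq_zero.1 h0).2
    have h1 : ∀ y, ‖tht φ ϑ l y * ((M:ℂ)⁻¹ * f y)‖ ≤ 1 := by
      intro y
      have h2 : ‖tht φ ϑ l y * f y‖ₑ ≤ S + ε := 
        (le_iSup (fun x => ‖tht φ ϑ l x * f x‖ₑ) y).trans le_self_add
      have h3 : ‖tht φ ϑ l y * f y‖ ≤ M := by
        have := ENNReal.toReal_mono hne h2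
        rwa [toReal_enorm] at this
      have h4 : ‖tht φ ϑ l y * ((M:ℂ)⁻¹ * f y)‖ = M⁻¹ * ‖tht φ ϑ l y * f y‖ := by
        rw [norm_mul, norm_mul, norm_mul, norm_inv, Complex.norm_real, Real.norm_of_nonneg hMpos.le]
        ring
      rw [h4, inv_mul_le_iff₀ hMpos, mul_one]
      exact h3
    have hmd : MDifferentiable 𝓘(ℂ) 𝓘(ℂ) (fun y => (M:ℂ)⁻¹ * f y) := by
      have h1 : Differentiable ℂ (fun z : ℂ => (M:ℂ)⁻¹ * z) := by fun_prop
      exact h1.mdifferentiable.comp hf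
    have h5 := key_bound h hl hs hdense hgood hmd h1 x
    rw [norm_mul, norm_inv, Complex.norm_real, Real.norm_of_nonneg hMpos.le,
      inv_mul_le_iff₀ hMpos, mul_one] at h5
    rw [← ofReal_norm]
    exact (ENNReal.ofReal_le_iff_le_toReal hne).2 h5
  · refine iSup_mono (fun x => ?_)
    rw [enorm_mul]
    have h1 : ‖tht φ ϑ l x‖ₑ ≤ 1 := by
      rw [← ofReal_norm]
      exact ENNReal.ofReal_le_one.2 (tht_lt h hl x).le
    calc ‖tht φ ϑ l x‖ₑ * ‖f x‖ₑ ≤ 1 * ‖f x‖ₑ := by gcongr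
      _ = ‖f x‖ₑ := one_mul _

theorem blaschke_zero {ι : Type} {a : ι → ℂ} {b : ℂ → ℂ} (h : IsBlaschkeZeros a b) (i : ι) :
    b (a i) = 0 := by
  classical
  obtain ⟨-, ha, -, c, hc, hprod⟩ := h
  have h1 := hprod (a i) (by rw [mem_ball_zero_iff]; exact ha i)
  have h1' : Tendsto (fun G : Finset ι => ∏ j ∈ G, factor (a j) (a i)) atTop
      (𝓝 (c * b (a i))) := by
    simpa [HasProd] using h1
  have h2 : Tendsto (fun G : Finset ι => ∏ j ∈ G, factor (a j) (a i)) atTop (𝓝 0) := by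
    refine tendsto_const_nhds.congr' ?_
    filter_upwards [eventually_ge_atTop {i}] with G hG
    symm
    apply Finset.prod_eq_zero (hG (Finset.mem_singleton_self i))
    rw [factor]
    split_ifs with h0
    · exact h0
    · simp
  have h3 := tendsto_nhds_unique h1' h2
  have hc0 : c ≠ 0 := by
    rintro rfl
    rw [norm_zero] at hc
    exact zero_ne_one hc
  exact (mul_eq_zero.1 h3).resolve_left hc0

theorem blaschke_empty {ι : Type} [IsEmpty ι] {a : ι → ℂ} {b : ℂ → ℂ} (h : IsBlaschkeZeros a b)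
    {z w : ℂ} (hz : z ∈ ball (0:ℂ) 1) (hw : w ∈ ball (0:ℂ) 1) : b z = b w := by
  obtain ⟨-, ha, -, c, hc, hprod⟩ := h
  have h1 := (hprod z hz).tprod_eq
  have h2 := (hprod w hw).tprod_eq
  rw [tprod_empty] at h1 h2
  have hc0 : c ≠ 0 := by
    rintro rfl
    rw [norm_zero] at hc
    exact zero_ne_one hc
  exact mul_left_cancel₀ hc0 (h1.symm.trans h2)

theorem no_pair (h : TwoSheeted φ σ ϑ B) {l : ℂ} (hl : ‖l‖ = 3 / 4) (x : X)
    (h1 : tht φ ϑ l x = 0) (h2 : tht φ ϑ l (σ x) = 0) : False := by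
  have hl1 : ‖l‖ < 1 := by rw [hl]; norm_num
  have hz := phi_lt h x
  have hv := theta_lt h x
  have hv' : ‖-ϑ x‖ < 1 := by rwa [norm_neg]
  rw [tht, tau_eq_zero hl1 (psi_lt hz hv)] at h1
  rw [tht, phi_sigma h, h.theta_sigma, tau_eq_zero hl1 (psi_lt hz hv')] at h2
  rw [psi, tau_half hv] at h1
  rw [psi, tau_half hv'] at h2
  set z := φ x with hzdef
  set v := ϑ x with hvdef
  have d1 := tau_half_den hv
  have d2 := tau_half_den hv'
  have hz0 : z ≠ 0 := by
    rintro h0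
    rw [h0, zero_mul] at h1
    rw [h1, norm_zero] at hl
    norm_num at hl
  have h3 : (1 - 2 * v) / (2 - v) = (1 - 2 * -v) / (2 - -v) :=
    mul_left_cancel₀ hz0 (h1.symm.trans h2)
  rw [div_eq_div_iff d1 d2] at h3
  have hv0 : v = 0 := by linear_combination (-1 / 6 : ℂ) * h3
  rw [hv0] at h1
  norm_num at h1
  rw [h1, norm_mul] at hl
  norm_num at hl
  linarith

theorem not_product (h : TwoSheeted φ σ ϑ B) {l : ℂ} (hl : ‖l‖ = 3 / 4) :
    ¬ IsProductOf (InL φ ϑ B) (tht φ ϑ l) := by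
  intro hprod
  have hl1 : ‖l‖ < 1 := by rw [hl]; norm_num
  obtain ⟨ι, a, hinf, hinj, hrange, hB⟩ := h.branch
  obtain ⟨i, j, hij⟩ := exists_pair_ne ι
  have hlift : ∀ k : ι, ∃ x, φ x = a k ∧ ϑ x = 0 := by
    intro k
    have h1 : a k ∈ range a := mem_range_self k
    rw [hrange] at h1
    obtain ⟨x, -, hx⟩ := h1
    refine ⟨x, hx, ?_⟩
    have h2 := h.theta_sq x
    rw [hx, blaschke_zero hB k] at h2
    exact pow_eq_zero_iff (two_ne_zero) |>.1 h2
  obtain ⟨x, hx, hx0⟩ := hlift i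
  obtain ⟨y, hy, hy0⟩ := hlift j
  -- the factors take the same value at `x` and `y`
  have hfac : ∀ f : X → ℂ, InL φ ϑ B f → (∀ w, f w = 0 → tht φ ϑ l w = 0) → f x = f y := by
    intro f hf hz
    rcases hf with ⟨b, ⟨κ, c, hb⟩, hfb⟩ | hf | ⟨κ, c, b, bs, u, -, -, -, -, hfb⟩
    · by_cases hκ : IsEmpty κ
      · rw [hfb, hfb]
        exact blaschke_empty hb (h.mem x) (h.mem y)
      · rw [not_isEmpty_iff] at hκ
        obtain ⟨k⟩ := hκ
        exfalso
        have hk : c k ∈ ball (0:ℂ) 1 := by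
          rw [mem_ball_zero_iff]
          exact hb.2.1 k
        have hck : b (c k) = 0 := blaschke_zero hb k
        refine no_pair h hl (sect h (c k) hk) (hz _ ?_) (hz _ ?_)
        · rw [hfb, phi_sect h, hck]
        · rw [hfb, phi_sigma h, phi_sect h, hck]
    · rw [hf, hf, hx0, hy0]
    · rw [hfb, hfb, hx0, hy0, mul_zero, mul_zero]
  have hval : tht φ ϑ l x = tht φ ϑ l y := by
    rcases hprod with ⟨L, hL, hLp⟩ | ⟨f, hf, hfp⟩
    · rw [hLp x, hLp y]
      congr 1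
      apply List.map_congr_left
      intro f hfL
      apply hfac f (hL f hfL)
      intro w hw
      rw [hLp w]
      apply List.prod_eq_zero
      rw [List.mem_map]
      exact ⟨f, hfL, hw⟩
    · have hsame : ∀ n, f n x = f n y := by
        intro n
        apply hfac (f n) (hf n)
        intro w hw
        refine tendsto_nhds_unique (hfp w) ?_
        refine tendsto_const_nhds.congr' ?_
        filter_upwards [eventually_gt_atTop n] with N hN
        symm
        exact Finset.prod_eq_zero (Finset.mem_range.2 hN) hw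
      refine tendsto_nhds_unique (hfp x) ?_
      refine (hfp y).congr (fun N => ?_)
      exact Finset.prod_congr rfl (fun k _ => (hsame k).symm)
  -- but the values of `θ` are different
  have hτ0 : tau (1 / 2) 0 = 1 / 2 := by
    rw [tau]
    simp
  rw [tht, tht, hx, hy, hx0, hy0, psi, psi, hτ0] at hval
  have hai : ‖a i‖ < 1 := hB.2.1 i
  have haj : ‖a j‖ < 1 := hB.2.1 j
  have n1 : ‖a i * (1 / 2)‖ < 1 := by
    rw [norm_mul]
    have := half_lt
    nlinarith [norm_nonneg (a i), norm_nonneg (1 / 2 : ℂ)]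
  have n2 : ‖a j * (1 / 2)‖ < 1 := by
    rw [norm_mul]
    have := half_lt
    nlinarith [norm_nonneg (a j), norm_nonneg (1 / 2 : ℂ)]
  rw [tau, tau, div_eq_div_iff (fac_den hl1 n1) (fac_den hl1 n2)] at hval
  have hll : l * conj l = ((9 / 16 : ℝ) : ℂ) := by
    rw [Complex.mul_conj, Complex.normSq_eq_norm_sq, hl]
    norm_num
  have h5 : (a i - a j) * (l * conj l - 1) = 0 := by
    linear_combination 2 * hval
  rw [hll] at h5
  rcases mul_eq_zero.1 h5 with h6 | h6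
  · exact hij (hinj (sub_eq_zero.1 h6))
  · norm_num at h6

/-- **Main theorem.** -/
theorem main (h : TwoSheeted φ σ ϑ B) :
    ∃ θ : X → ℂ, QuasiProper θ ∧ ¬ IsProductOf (InL φ ϑ B) θ := by
  obtain ⟨t, htc, htd⟩ := TopologicalSpace.exists_countable_dense (ball (0:ℂ) 1)
  have hne : Nonempty (ball (0:ℂ) 1) := ⟨⟨0, by simp⟩⟩
  obtain ⟨s, hs⟩ := htc.exists_eq_range (htd.nonempty)
  set s' : ℕ → ℂ := fun n => (s n : ℂ) with hs'
  have hs1 : ∀ n, ‖s' n‖ < 1 := fun n => by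
    have := (s n).2
    rwa [mem_ball_zero_iff] at this
  have hdense : ball (0:ℂ) 1 ⊆ closure (range s') := by
    intro z hz
    have h1 : (⟨z, hz⟩ : ball (0:ℂ) 1) ∈ closure t := htd _
    rw [closure_subtype, hs, ← range_comp] at h1
    exact h1
  obtain ⟨α, hα⟩ := exists_param h s' hs1
  have hl : ‖circleMap 0 (3 / 4) α‖ = 3 / 4 := by
    rw [norm_circleMap_zero]
    norm_num [abs_of_pos]
  exact ⟨tht φ ϑ (circleMap 0 (3 / 4) α), quasi h (quarter_lt α) hs1 hdense hα, not_product h hl⟩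

end Surface

end Pool.Agent.W770.QP
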