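import Pool.Agent.W770.QP.Defs

set_option autoImplicit false

namespace Pool.Agent.W770.QP

open Complex Metric Set Filter Topology MeasureTheory Real
open scoped ComplexConjugate ENNReal

/-! ### Jensen's inequality -/

theorem jensen_le {f : ℂ → ℂ} {r : ℝ} (hr : 0 < r) (hf : AnalyticOnNhd ℂ f (closedBall 0 r))
    (h0 : f 0 ≠ 0) : Real.log ‖f 0‖ ≤ circleAverage (fun z => Real.log ‖f z‖) 0 r := by
  have habs : |r| = r := abs_of_pos hr
  have h1 := AnalyticOnNhd.circleAverage_log_norm (c := 0) (R := r) (f := f) hr.ne'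
    (by rwa [habs]) h0
  have h2 : circleAverage (fun z => Real.log ‖f z‖) 0 r =
      ∑ᶠ u, MeromorphicOn.divisor f (closedBall 0 |r|) u * Real.log (r * ‖(0:ℂ) - u‖⁻¹)
        + Real.log ‖f 0‖ := h1
  rw [h2]
  have h3 : 0 ≤ ∑ᶠ u, MeromorphicOn.divisor f (closedBall 0 |r|) u *
      Real.log (r * ‖(0:ℂ) - u‖⁻¹) := by
    apply finsum_nonneg
    intro u
    by_cases hu : u ∈ closedBall (0:ℂ) |r|
    · apply mul_nonneg
      · have h4 : 0 ≤ MeromorphicOn.divisor f (closedBall 0 |r|) :=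
          MeromorphicOn.AnalyticOnNhd.divisor_nonneg (by rwa [habs])
        exact_mod_cast h4 u
      · rw [zero_sub, norm_neg]
        rw [habs, mem_closedBall_zero_iff] at hu
        rcases eq_or_ne u 0 with rfl | hu0
        · simp
        · apply Real.log_nonneg
          rw [← div_eq_mul_inv, one_le_div (norm_pos_iff.2 hu0)]
          exact hu
    · rw [Function.locallyFinsuppWithin.apply_eq_zero_of_notMem _ hu]
      simp
  linarith

/-! ### Moebius maps -/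

/-- the automorphism of the disc which maps `0` to `w` -/
noncomputable def mob (w z : ℂ) : ℂ := (w + z) / (1 + conj w * z)

theorem mob_den {w z : ℂ} (hw : ‖w‖ < 1) (hz : ‖z‖ < 1) : 1 + conj w * z ≠ 0 := by
  intro h
  have h1 : ‖conj w * z‖ = 1 := by
    have : conj w * z = -1 := by linear_combination h
    rw [this]; simp
  rw [norm_mul, Complex.norm_conj] at h1
  nlinarith [norm_nonneg w, norm_nonneg z]

theorem mob_den_ge {w z : ℂ} (hz : ‖z‖ ≤ 1) : 1 - ‖w‖ ≤ ‖1 + conj w * z‖ := by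
  have h1 : ‖conj w * z‖ ≤ ‖w‖ := by
    rw [norm_mul, Complex.norm_conj]
    nlinarith [norm_nonneg w]
  have h2 := norm_sub_le_norm_add (1:ℂ) (conj w * z)
  rw [norm_one] at h2
  linarith

theorem mob_zero (w : ℂ) : mob w 0 = w := by simp [mob]

theorem normSq_id (w z : ℂ) :
    ‖1 + conj w * z‖ ^ 2 - ‖w + z‖ ^ 2 = (1 - ‖w‖ ^ 2) * (1 - ‖z‖ ^ 2) := by
  simp only [← Complex.normSq_eq_norm_sq, Complex.normSq_apply, Complex.add_re, Complex.add_im,
    Complex.mul_re, Complex.mul_im, Complex.conj_re, Complex.conj_im, Complex.one_re,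
    Complex.one_im]
  ring

theorem one_sub_mob {w z : ℂ} (hw : ‖w‖ < 1) (hz : ‖z‖ < 1) :
    1 - ‖mob w z‖ ^ 2 = (1 - ‖w‖ ^ 2) * (1 - ‖z‖ ^ 2) / ‖1 + conj w * z‖ ^ 2 := by
  have hd : ‖1 + conj w * z‖ ^ 2 ≠ 0 := pow_ne_zero _ (norm_ne_zero_iff.2 (mob_den hw hz))
  rw [← normSq_id, mob, norm_div, div_pow, sub_div, div_self hd]

theorem mob_lt {w z : ℂ} (hw : ‖w‖ < 1) (hz : ‖z‖ < 1) : ‖mob w z‖ < 1 := by
  have h1 := one_sub_mob hw hz
  have h2 : 0 < (1 - ‖w‖ ^ 2) * (1 - ‖z‖ ^ 2) / ‖1 + conj w * z‖ ^ 2 := by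
    have h3 : 0 < ‖1 + conj w * z‖ := norm_pos_iff.2 (mob_den hw hz)
    have h4 : 0 < 1 - ‖w‖ ^ 2 := by nlinarith [norm_nonneg w]
    have h5 : 0 < 1 - ‖z‖ ^ 2 := by nlinarith [norm_nonneg z]
    positivity
  rw [← h1] at h2
  by_contra hc
  push Not at hc
  nlinarith

theorem one_sub_mob_le {w z : ℂ} (hw : ‖w‖ < 1) (hz : ‖z‖ < 1) :
    1 - ‖mob w z‖ ^ 2 ≤ (1 - ‖z‖ ^ 2) / (1 - ‖w‖) ^ 2 := by
  rw [one_sub_mob hw hz]
  have h1 := mob_den_ge (w := w) hz.le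
  have h2 : 0 < 1 - ‖w‖ := by linarith
  have h3 : 0 ≤ 1 - ‖z‖ ^ 2 := by nlinarith [norm_nonneg z]
  have h4 : (1 - ‖w‖ ^ 2) * (1 - ‖z‖ ^ 2) ≤ 1 - ‖z‖ ^ 2 := by
    nlinarith [mul_nonneg (sq_nonneg ‖w‖) h3]
  have h5 : (1 - ‖w‖) ^ 2 ≤ ‖1 + conj w * z‖ ^ 2 := pow_le_pow_left₀ h2.le h1 2
  exact div_le_div₀ h3 h4 (by positivity) h5

theorem mob_diff {w : ℂ} (hw : ‖w‖ < 1) : DifferentiableOn ℂ (mob w) (ball 0 1) := by
  intro z hz
  rw [mem_ball_zero_iff] at hz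
  apply DifferentiableAt.differentiableWithinAt
  unfold mob
  exact ((differentiableAt_const w).add differentiableAt_id).div
    ((differentiableAt_const _).add ((differentiableAt_const _).mul differentiableAt_id))
    (mob_den hw hz)

theorem mob_maps {w : ℂ} (hw : ‖w‖ < 1) : MapsTo (mob w) (ball 0 1) (ball 0 1) := by
  intro z hz
  rw [mem_ball_zero_iff] at hz ⊢
  exact mob_lt hw hz

/-! ### Factors -/

theorem normSq_id' (a z : ℂ) :
    ‖1 - conj a * z‖ ^ 2 - ‖a - z‖ ^ 2 = (1 - ‖a‖ ^ 2) * (1 - ‖z‖ ^ 2) := by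
  simp only [← Complex.normSq_eq_norm_sq, Complex.normSq_apply, Complex.sub_re, Complex.sub_im,
    Complex.mul_re, Complex.mul_im, Complex.conj_re, Complex.conj_im, Complex.one_re,
    Complex.one_im]
  ring

theorem fac_den {a z : ℂ} (ha : ‖a‖ < 1) (hz : ‖z‖ < 1) : 1 - conj a * z ≠ 0 := by
  intro h
  have h1 : ‖conj a * z‖ = 1 := by
    have : conj a * z = 1 := by linear_combination -h
    rw [this]; simp
  rw [norm_mul, Complex.norm_conj] at h1
  nlinarith [norm_nonneg a, norm_nonneg z]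

theorem fac_den_ge {a z : ℂ} (hz : ‖z‖ ≤ 1) : 1 - ‖a‖ ≤ ‖1 - conj a * z‖ := by
  have h1 : ‖conj a * z‖ ≤ ‖a‖ := by
    rw [norm_mul, Complex.norm_conj]
    nlinarith [norm_nonneg a]
  have h2 := norm_sub_norm_le (1:ℂ) (conj a * z)
  rw [norm_one] at h2
  linarith

theorem fac_den_ge' {a z : ℂ} (ha : ‖a‖ ≤ 1) : 1 - ‖z‖ ≤ ‖1 - conj a * z‖ := by
  have h1 : ‖conj a * z‖ ≤ ‖z‖ := by
    rw [norm_mul, Complex.norm_conj]
    nlinarith [norm_nonneg z]
  have h2 := norm_sub_norm_le (1:ℂ) (conj a * z)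
  rw [norm_one] at h2
  linarith

theorem norm_factor {a z : ℂ} : ‖factor a z‖ = ‖(a - z) / (1 - conj a * z)‖ := by
  unfold factor
  split_ifs with h
  · subst h
    simp
  · rw [norm_mul]
    have : ‖((‖a‖ : ℂ) / a)‖ = 1 := by
      rw [norm_div, Complex.norm_real, norm_norm, div_self (norm_ne_zero_iff.2 h)]
    rw [this, one_mul]

theorem one_sub_factor {a z : ℂ} (ha : ‖a‖ < 1) (hz : ‖z‖ < 1) :
    1 - ‖factor a z‖ ^ 2 = (1 - ‖a‖ ^ 2) * (1 - ‖z‖ ^ 2) / ‖1 - conj a * z‖ ^ 2 := by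
  have hd : ‖1 - conj a * z‖ ^ 2 ≠ 0 := pow_ne_zero _ (norm_ne_zero_iff.2 (fac_den ha hz))
  rw [← normSq_id', norm_factor, norm_div, div_pow, sub_div, div_self hd]

theorem factor_lt {a z : ℂ} (ha : ‖a‖ < 1) (hz : ‖z‖ < 1) : ‖factor a z‖ < 1 := by
  have h1 := one_sub_factor ha hz
  have h2 : 0 < (1 - ‖a‖ ^ 2) * (1 - ‖z‖ ^ 2) / ‖1 - conj a * z‖ ^ 2 := by
    have h3 : 0 < ‖1 - conj a * z‖ := norm_pos_iff.2 (fac_den ha hz)
    have h4 : 0 < 1 - ‖a‖ ^ 2 := by nlinarith [norm_nonneg a]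
    have h5 : 0 < 1 - ‖z‖ ^ 2 := by nlinarith [norm_nonneg z]
    positivity
  rw [← h1] at h2
  by_contra hc
  push Not at hc
  nlinarith

theorem one_sub_le_sq {x : ℝ} (h0 : 0 ≤ x) (h1 : x ≤ 1) : 1 - x ≤ 1 - x ^ 2 := by nlinarith

/-- small in terms of the zero -/
theorem one_sub_factor_le {a z : ℂ} (ha : ‖a‖ < 1) (hz : ‖z‖ < 1) :
    1 - ‖factor a z‖ ≤ 2 / (1 - ‖z‖) ^ 2 * (1 - ‖a‖) := by
  refine (one_sub_le_sq (norm_nonneg _) (factor_lt ha hz).le).trans ?_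
  rw [one_sub_factor ha hz]
  have h1 := fac_den_ge' (z := z) ha.le
  have h2 : 0 < 1 - ‖z‖ := by linarith
  have h5 : (1 - ‖z‖) ^ 2 ≤ ‖1 - conj a * z‖ ^ 2 := pow_le_pow_left₀ h2.le h1 2
  rw [div_mul_eq_mul_div]
  have hna := norm_nonneg a
  have hnz := norm_nonneg z
  apply div_le_div₀ (by nlinarith) _ (by positivity) h5
  have h6 : 1 - ‖a‖ ^ 2 ≤ 2 * (1 - ‖a‖) := by nlinarith
  have h7 : 0 ≤ 1 - ‖a‖ ^ 2 := by nlinarith
  have h8 : 1 - ‖z‖ ^ 2 ≤ 1 := by nlinarith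
  nlinarith

/-- small in terms of the argument -/
theorem one_sub_factor_le' {a z : ℂ} (ha : ‖a‖ < 1) (hz : ‖z‖ < 1) :
    1 - ‖factor a z‖ ≤ 1 / (1 - ‖a‖) ^ 2 * (1 - ‖z‖ ^ 2) := by
  refine (one_sub_le_sq (norm_nonneg _) (factor_lt ha hz).le).trans ?_
  rw [one_sub_factor ha hz]
  have h1 := fac_den_ge (a := a) hz.le
  have h2 : 0 < 1 - ‖a‖ := by linarith
  have h5 : (1 - ‖a‖) ^ 2 ≤ ‖1 - conj a * z‖ ^ 2 := pow_le_pow_left₀ h2.le h1 2
  rw [div_mul_eq_mul_div]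
  have hna := norm_nonneg a
  have hnz := norm_nonneg z
  have h3 : 0 ≤ 1 - ‖z‖ ^ 2 := by nlinarith
  apply div_le_div₀ (by linarith) _ (by positivity) h5
  nlinarith [mul_nonneg (sq_nonneg ‖a‖) h3]

theorem factor_diff {a : ℂ} (ha : ‖a‖ < 1) : DifferentiableOn ℂ (factor a) (ball 0 1) := by
  intro z hz
  rw [mem_ball_zero_iff] at hz
  apply DifferentiableAt.differentiableWithinAt
  unfold factor
  split_ifs with h
  · exact differentiableAt_id
  · exact (((differentiableAt_const a).sub differentiableAt_id).div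
      ((differentiableAt_const _).sub ((differentiableAt_const _).mul differentiableAt_id))
      (fac_den ha hz)).const_mul _

/-! ### Circle means of `1 - |B|` -/

theorem circle_lt {r : ℝ} (hr0 : 0 < r) (hr1 : r < 1) (t : ℝ) : ‖circleMap 0 r t‖ < 1 := by
  rw [norm_circleMap_zero, abs_of_pos hr0]
  exact hr1

theorem circle_mem {r : ℝ} (hr0 : 0 < r) (hr1 : r < 1) (t : ℝ) :
    circleMap 0 r t ∈ ball (0:ℂ) 1 := by
  rw [mem_ball_zero_iff]
  exact circle_lt hr0 hr1 t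

theorem closedBall_sub {r : ℝ} (hr1 : r < 1) : closedBall (0:ℂ) r ⊆ ball 0 1 :=
  closedBall_subset_ball hr1

/-- the mean of `|Q|` over a circle is at least `|Q(0)|` -/
theorem mean_norm_ge {Q : ℂ → ℂ} (hQ : DifferentiableOn ℂ Q (ball 0 1)) {r : ℝ} (hr0 : 0 < r)
    (hr1 : r < 1) : ‖Q 0‖ ≤ circleAverage (fun z => ‖Q z‖) 0 r := by
  have h1 : circleAverage Q 0 r = Q 0 := by
    apply DiffContOnCl.circleAverage
    apply DifferentiableOn.diffContOnCl
    apply hQ.mono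
    rw [abs_of_pos hr0]
    exact closure_ball_subset_closedBall.trans (closedBall_sub hr1)
  rw [← h1]
  unfold circleAverage
  rw [norm_smul, smul_eq_mul, Real.norm_of_nonneg (by positivity)]
  apply mul_le_mul_of_nonneg_left _ (by positivity)
  exact intervalIntegral.norm_integral_le_integral_norm (by positivity)

end Pool.Agent.W770.QP
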