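import Pool.Agent.W770.QP.Mean

set_option autoImplicit false

namespace Pool.Agent.W770.QP

open Complex Metric Set Filter Topology MeasureTheory Real
open scoped ComplexConjugate ENNReal

theorem prod_diff {ι : Type} {a : ι → ℂ} (ha : ∀ i, ‖a i‖ < 1) (F : Finset ι) :
    DifferentiableOn ℂ (fun z => ∏ i ∈ F, factor (a i) z) (ball 0 1) := by
  classical
  induction F using Finset.induction_on with
  | empty => simp
  | insert i F hi ih =>
    simp_rw [Finset.prod_insert hi]
    exact (factor_diff (ha i)).mul ih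

/-- `1 - ∏ x ≤ ∑ (1 - x)` for numbers in `[0,1]` -/
theorem one_sub_prod_le {ι : Type} (F : Finset ι) (x : ι → ℝ) (h0 : ∀ i, 0 ≤ x i)
    (h1 : ∀ i, x i ≤ 1) : 1 - ∏ i ∈ F, x i ≤ ∑ i ∈ F, (1 - x i) := by
  classical
  induction F using Finset.induction_on with
  | empty => simp
  | insert i F hi ih =>
    rw [Finset.prod_insert hi, Finset.sum_insert hi]
    have h2 : 0 ≤ ∏ j ∈ F, x j := Finset.prod_nonneg (fun j _ => h0 j)
    have h3 : ∏ j ∈ F, x j ≤ 1 := Finset.prod_le_one (fun j _ => h0 j) (fun j _ => h1 j)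
    nlinarith [h0 i, h1 i]

theorem prod_norm_le_one {ι : Type} {a : ι → ℂ} (ha : ∀ i, ‖a i‖ < 1) (F : Finset ι) {z : ℂ}
    (hz : ‖z‖ < 1) : ‖∏ i ∈ F, factor (a i) z‖ ≤ 1 := by
  rw [norm_prod]
  exact Finset.prod_le_one (fun i _ => norm_nonneg _) (fun i _ => (factor_lt (ha i) hz).le)

theorem circleAverage_mono_cont {f g : ℝ → ℝ} (hf : Continuous f) (hg : Continuous g)
    (h : ∀ t, f t ≤ g t) :
    (2 * π)⁻¹ * ∫ t in (0:ℝ)..2 * π, f t ≤ (2 * π)⁻¹ * ∫ t in (0:ℝ)..2 * π, g t := by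
  apply mul_le_mul_of_nonneg_left _ (by positivity)
  exact intervalIntegral.integral_mono (by positivity) (hf.intervalIntegrable _ _)
    (hg.intervalIntegrable _ _) h

theorem cont_mob {w : ℂ} (hw : ‖w‖ < 1) {r : ℝ} (hr0 : 0 < r) (hr1 : r < 1) {f : ℂ → ℂ}
    (hf : ContinuousOn f (ball 0 1)) : Continuous (fun t : ℝ => f (mob w (circleMap 0 r t))) := by
  rw [← continuousOn_univ]
  apply hf.comp (t := ball 0 1)
  · apply (mob_diff hw).continuousOn.comp (t := ball 0 1)
    · exact (continuous_circleMap 0 r).continuousOn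
    · intro t _
      exact circle_mem hr0 hr1 t
  · intro t _
    exact mob_maps hw (circle_mem hr0 hr1 t)

/-- **Circle means.** For a Blaschke product `B` and every point `w` of the disc, the mean of
`1 - |B|` over the images of large circles under the automorphism with `0 ↦ w` is small. -/
theorem mean_small {ι : Type} {a : ι → ℂ} {B : ℂ → ℂ} (h : IsBlaschkeZeros a B)
    {w : ℂ} (hw : ‖w‖ < 1) {ε : ℝ} (hε : 0 < ε) :
    ∃ r0 < 1, ∀ r, r0 < r → r < 1 → 0 < r →
      (2 * π)⁻¹ * ∫ t in (0:ℝ)..2 * π, (1 - ‖B (mob w (circleMap 0 r t))‖) ≤ ε := by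
  classical
  obtain ⟨hcount, ha, hsum, c, hc, hprod⟩ := h
  have hπ : (0:ℝ) < 2 * π := by positivity
  -- the tail
  set Cw : ℝ := 2 / (1 - ‖w‖) ^ 2 with hCw
  have hCw0 : 0 < Cw := by
    have : 0 < 1 - ‖w‖ := by linarith
    positivity
  have hsum' : Summable (fun i => Cw * (1 - ‖a i‖)) := hsum.mul_left _
  obtain ⟨F, hF⟩ := (summable_iff_vanishing_norm.1 hsum') (ε / 2) (by linarith)
  -- finite tails at `w`
  have htail : ∀ G : Finset ι, Disjoint G F → 1 - ‖∏ i ∈ G, factor (a i) w‖ ≤ ε / 2 := by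
    intro G hG
    have h1 := hF G hG
    rw [Real.norm_of_nonneg (Finset.sum_nonneg (fun i _ => mul_nonneg hCw0.le
      (by linarith [ha i])))] at h1
    rw [norm_prod]
    refine (one_sub_prod_le G _ (fun i => norm_nonneg _) (fun i => (factor_lt (ha i) hw).le)).trans
      (le_trans (Finset.sum_le_sum (fun i _ => one_sub_factor_le (ha i) hw)) h1.le)
  -- the finite part
  set K : ℝ := ∑ i ∈ F, 1 / (1 - ‖a i‖) ^ 2 / (1 - ‖w‖) ^ 2 with hK
  have hK0 : 0 ≤ K := Finset.sum_nonneg (fun i _ => by positivity)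
  have hfin : ∀ z, ‖z‖ < 1 → 1 - ‖∏ i ∈ F, factor (a i) (mob w z)‖ ≤ K * (1 - ‖z‖ ^ 2) := by
    intro z hz
    have hm := mob_lt hw hz
    rw [norm_prod]
    refine (one_sub_prod_le F _ (fun i => norm_nonneg _) (fun i => (factor_lt (ha i) hm).le)).trans ?_
    rw [hK, Finset.sum_mul]
    apply Finset.sum_le_sum
    intro i _
    have h2 : 0 < 1 - ‖a i‖ := by linarith [ha i]
    calc 1 - ‖factor (a i) (mob w z)‖ ≤ 1 / (1 - ‖a i‖) ^ 2 * (1 - ‖mob w z‖ ^ 2) :=
          one_sub_factor_le' (ha i) hm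
      _ ≤ 1 / (1 - ‖a i‖) ^ 2 * ((1 - ‖z‖ ^ 2) / (1 - ‖w‖) ^ 2) :=
          mul_le_mul_of_nonneg_left (one_sub_mob_le hw hz) (by positivity)
      _ = 1 / (1 - ‖a i‖) ^ 2 / (1 - ‖w‖) ^ 2 * (1 - ‖z‖ ^ 2) := by ring
  -- all finite products containing `F`
  have hpart : ∀ G : Finset ι, F ⊆ G → ∀ r, 0 < r → r < 1 →
      (2 * π)⁻¹ * ∫ t in (0:ℝ)..2 * π, (1 - ‖∏ i ∈ G, factor (a i) (mob w (circleMap 0 r t))‖) ≤
        K * (1 - r ^ 2) + ε / 2 := by
    intro G hFG r hr0 hr1
    have hcont : ∀ H : Finset ι, Continuous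
        (fun t : ℝ => ‖∏ i ∈ H, factor (a i) (mob w (circleMap 0 r t))‖) := fun H =>
      (cont_mob hw hr0 hr1 (prod_diff ha H).continuousOn).norm
    have h1 : ∀ t : ℝ, 1 - ‖∏ i ∈ G, factor (a i) (mob w (circleMap 0 r t))‖ ≤
        K * (1 - r ^ 2) + (1 - ‖∏ i ∈ G \ F, factor (a i) (mob w (circleMap 0 r t))‖) := by
      intro t
      have hz := circle_lt hr0 hr1 t
      have hm := mob_lt hw hz
      have h2 := hfin _ hz
      rw [norm_circleMap_zero, sq_abs] at h2
      rw [← Finset.prod_sdiff hFG, norm_mul]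
      have h3 := prod_norm_le_one ha (G \ F) hm
      have h4 := prod_norm_le_one ha F hm
      nlinarith [norm_nonneg (∏ i ∈ G \ F, factor (a i) (mob w (circleMap 0 r t))),
        norm_nonneg (∏ i ∈ F, factor (a i) (mob w (circleMap 0 r t)))]
    refine (circleAverage_mono_cont (continuous_const.sub (hcont G))
      (continuous_const.add (continuous_const.sub (hcont (G \ F)))) h1).trans ?_
    have hc1 : Continuous (fun t : ℝ =>
        (1:ℝ) - ‖∏ i ∈ G \ F, factor (a i) (mob w (circleMap 0 r t))‖) :=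
      continuous_const.sub (hcont _)
    have e1 : ∫ t in (0:ℝ)..2 * π, (K * (1 - r ^ 2) +
        (1 - ‖∏ i ∈ G \ F, factor (a i) (mob w (circleMap 0 r t))‖)) =
        (∫ _ in (0:ℝ)..2 * π, K * (1 - r ^ 2)) + ((∫ _ in (0:ℝ)..2 * π, (1:ℝ)) -
        ∫ t in (0:ℝ)..2 * π, ‖∏ i ∈ G \ F, factor (a i) (mob w (circleMap 0 r t))‖) := by
      rw [intervalIntegral.integral_add intervalIntegrable_const (hc1.intervalIntegrable _ _),
        intervalIntegral.integral_sub intervalIntegrable_const ((hcont _).intervalIntegrable _ _)]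
    simp only [Pi.add_apply, Pi.sub_apply]
    rw [e1]
    simp only [intervalIntegral.integral_const, sub_zero, smul_eq_mul]
    have hQ : DifferentiableOn ℂ (fun z => ∏ i ∈ G \ F, factor (a i) (mob w z)) (ball 0 1) :=
      (prod_diff ha (G \ F)).comp (mob_diff hw) (mob_maps hw)
    have h5 := mean_norm_ge hQ hr0 hr1
    simp only [mob_zero] at h5
    have h6 := htail (G \ F) Finset.sdiff_disjoint
    unfold circleAverage at h5
    rw [smul_eq_mul] at h5
    have h7 : (2 * π)⁻¹ * (2 * π * (K * (1 - r ^ 2)) + (2 * π * 1 -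
        ∫ t in (0:ℝ)..2 * π, ‖∏ i ∈ G \ F, factor (a i) (mob w (circleMap 0 r t))‖)) =
        K * (1 - r ^ 2) + 1 - (2 * π)⁻¹ *
        ∫ t in (0:ℝ)..2 * π, ‖∏ i ∈ G \ F, factor (a i) (mob w (circleMap 0 r t))‖ := by
      field_simp
      ring
    rw [h7]
    linarith
  -- the limit
  have hlim : ∀ r, 0 < r → r < 1 →
      (2 * π)⁻¹ * ∫ t in (0:ℝ)..2 * π, (1 - ‖B (mob w (circleMap 0 r t))‖) ≤
        K * (1 - r ^ 2) + ε / 2 := by
    intro r hr0 hr1
    have hT : Tendsto (fun G : Finset ι => ∫ t in (0:ℝ)..2 * π,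
        (1 - ‖∏ i ∈ G, factor (a i) (mob w (circleMap 0 r t))‖)) atTop
        (𝓝 (∫ t in (0:ℝ)..2 * π, (1 - ‖B (mob w (circleMap 0 r t))‖))) := by
      apply intervalIntegral.tendsto_integral_filter_of_dominated_convergence (fun _ => 1)
      · refine Eventually.of_forall (fun G => ?_)
        exact (continuous_const.sub (cont_mob hw hr0 hr1
          (prod_diff ha G).continuousOn).norm).aestronglyMeasurable
      · refine Eventually.of_forall (fun G => Eventually.of_forall (fun t _ => ?_))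
        have h1 := prod_norm_le_one ha G (mob_lt hw (circle_lt hr0 hr1 t))
        rw [Real.norm_of_nonneg (by linarith)]
        linarith [norm_nonneg (∏ i ∈ G, factor (a i) (mob w (circleMap 0 r t)))]
      · simp
      · refine Eventually.of_forall (fun t _ => ?_)
        have h1 := hprod _ (mob_maps hw (circle_mem hr0 hr1 t))
        have h1' : Tendsto (fun G : Finset ι => ∏ i ∈ G, factor (a i) (mob w (circleMap 0 r t)))
            atTop (𝓝 (c * B (mob w (circleMap 0 r t)))) := by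
          simpa [HasProd] using h1
        have h2 := (h1'.norm).const_sub 1
        rw [norm_mul, hc, one_mul] at h2
        exact h2
    refine le_of_tendsto (hT.const_mul _) ?_
    filter_upwards [eventually_ge_atTop F] with G hG
    exact hpart G hG r hr0 hr1
  -- conclusion
  refine ⟨1 - ε / (4 * (K + 1)), by
    have : 0 < ε / (4 * (K + 1)) := by positivity
    linarith, fun r hr hr1 hr0 => (hlim r hr0 hr1).trans ?_⟩
  have h1 : 1 - r < ε / (4 * (K + 1)) := by linarith
  rw [lt_div_iff₀ (by positivity)] at h1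
  nlinarith

end Pool.Agent.W770.QP
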