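import Pool.Agent.W770.QP.Core

set_option autoImplicit false

namespace Pool.Agent.W770.QP

set_option linter.unusedSectionVars false

open Complex Metric Set Filter Topology MeasureTheory Real
open scoped Manifold ContDiff ComplexConjugate ENNReal

section Surface

variable {X : Type} [TopologicalSpace X] [ChartedSpace ℂ X] [IsManifold 𝓘(ℂ) ⊤ X]
  {φ : X → ℂ} {σ : X → X} {ϑ : X → ℂ} {B : ℂ → ℂ}

theorem B_diff (h : TwoSheeted φ σ ϑ B) : DifferentiableOn ℂ B (ball 0 1) := by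
  have hg : MDifferentiable 𝓘(ℂ) 𝓘(ℂ) (fun x => ϑ x ^ 2) := by
    have h1 : Differentiable ℂ (fun z : ℂ => z ^ 2) := by fun_prop
    exact h1.mdifferentiable.comp h.theta_hol
  have hev : ∀ x, (fun x => ϑ x ^ 2) (σ x) = (fun x => ϑ x ^ 2) x := by
    intro x
    simp only [h.theta_sigma, neg_sq]
  refine (desc_differentiableOn h _ hg hev).congr (fun z hz => ?_)
  have h1 := desc_phi h (fun x => ϑ x ^ 2) hev (sect h z hz)
  rw [phi_sect h z hz] at h1
  rw [h1]
  simp only [h.theta_sq, phi_sect h z hz]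

theorem norm_B_lt (h : TwoSheeted φ σ ϑ B) {z : ℂ} (hz : ‖z‖ < 1) : ‖B z‖ < 1 := by
  obtain ⟨ι, a, hinf, -, -, hB⟩ := h.branch
  obtain ⟨i⟩ := hinf.nonempty
  exact blaschke_lt hB i hz

theorem phi_lt (h : TwoSheeted φ σ ϑ B) (x : X) : ‖φ x‖ < 1 := by
  have := h.mem x
  rwa [mem_ball_zero_iff] at this

theorem theta_lt (h : TwoSheeted φ σ ϑ B) (x : X) : ‖ϑ x‖ < 1 := by
  have h1 := norm_B_lt h (phi_lt h x)
  rw [← h.theta_sq, norm_pow] at h1
  by_contra hc
  push Not at hc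
  have : 1 ≤ ‖ϑ x‖ ^ 2 := one_le_pow₀ hc
  linarith

/-- the function `D(z) = (1 - |z|) + 4 (1 - |B(z)|)` -/
noncomputable def DD (B : ℂ → ℂ) (z : ℂ) : ℝ := (1 - ‖z‖) + 4 * (1 - ‖B z‖)

theorem DD_nonneg (h : TwoSheeted φ σ ϑ B) {z : ℂ} (hz : ‖z‖ < 1) : 0 ≤ DD B z := by
  have := norm_B_lt h hz
  unfold DD
  linarith

theorem quarter_lt (α : ℝ) : ‖circleMap 0 (3 / 4) α‖ < 1 := by
  rw [norm_circleMap_zero]
  norm_num [abs_of_pos]

theorem average_pt (h : TwoSheeted φ σ ϑ B) {z : ℂ} (hz : ‖z‖ < 1) :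
    ∫⁻ α in Ioc (0:ℝ) (2 * π), LL ‖NN (circleMap 0 (3 / 4) α) z (B z)‖ ≤
      ENNReal.ofReal (2 * π * (8 / 3 * DD B z)) := by
  have hzb : z ∈ ball (0:ℂ) 1 := by rwa [mem_ball_zero_iff]
  set x := sect h z hzb with hx
  have hφx : φ x = z := phi_sect h z hzb
  set v := ϑ x with hv
  have hv1 : ‖v‖ < 1 := theta_lt h x
  have hv1' : ‖-v‖ < 1 := by rwa [norm_neg]
  have hvB : v ^ 2 = B z := by rw [hv, h.theta_sq, hφx]
  have h1 : ∀ α : ℝ, LL ‖NN (circleMap 0 (3 / 4) α) z (B z)‖ ≤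
      LL ‖tau (circleMap 0 (3 / 4) α) (psi z v)‖ + LL ‖tau (circleMap 0 (3 / 4) α) (psi z (-v))‖ := by
    intro α
    rw [← hvB, NN_eq (quarter_lt α) hz hv1, norm_mul]
    exact LL_mul_le
  have hm : ∀ p : ℂ, Measurable (fun α : ℝ => LL ‖tau (circleMap 0 (3 / 4) α) p‖) := by
    intro p
    apply LL_measurable.comp
    have hc : Measurable (fun α : ℝ => circleMap 0 (3 / 4) α) := (continuous_circleMap 0 _).measurable
    have hcc : Measurable (fun α : ℝ => conj (circleMap 0 (3 / 4) α)) :=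
      (Complex.continuous_conj.measurable).comp hc
    unfold tau
    exact ((hc.sub_const p).div (measurable_const.sub (hcc.mul_const p))).norm
  have hp1 := psi_lt hz hv1
  have hp2 := psi_lt hz hv1'
  refine (lintegral_mono h1).trans ?_
  rw [lintegral_add_left (hm _)]
  refine (add_le_add (frostman hp1) (frostman hp2)).trans ?_
  rw [← ENNReal.ofReal_add (by have := Real.pi_pos; nlinarith) (by have := Real.pi_pos; nlinarith)]
  apply ENNReal.ofReal_le_ofReal
  have e1 := one_sub_psi hz hv1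
  have e2 := one_sub_psi hz hv1'
  rw [neg_sq, hvB] at e2
  rw [hvB] at e1
  have e3 : 4 / 3 * (1 - ‖psi z v‖) + 4 / 3 * (1 - ‖psi z (-v)‖) ≤ 8 / 3 * DD B z := by
    unfold DD
    linarith
  have hπ : (0:ℝ) < 2 * π := by positivity
  nlinarith

/-- joint measurability -/
theorem joint_meas (h : TwoSheeted φ σ ϑ B) {w : ℂ} (hw : ‖w‖ < 1) {r : ℝ} (hr0 : 0 < r)
    (hr1 : r < 1) : Measurable (fun q : ℝ × ℝ => LL ‖NN (circleMap 0 (3 / 4) q.1)
      (mob w (circleMap 0 r q.2)) (B (mob w (circleMap 0 r q.2)))‖) := by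
  apply LL_measurable.comp
  have hM : Measurable (fun t : ℝ => mob w (circleMap 0 r t)) :=
    (cont_mob (f := id) hw hr0 hr1 continuousOn_id).measurable
  have hb : Measurable (fun t : ℝ => B (mob w (circleMap 0 r t))) :=
    (cont_mob hw hr0 hr1 (B_diff h).continuousOn).measurable
  have hc : Measurable (fun α : ℝ => circleMap 0 (3 / 4) α) := (continuous_circleMap 0 _).measurable
  have hcc : Measurable (fun α : ℝ => conj (circleMap 0 (3 / 4) α)) :=
    (Complex.continuous_conj.measurable).comp hc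
  have a1 : Measurable (fun q : ℝ × ℝ => circleMap 0 (3 / 4) q.1) := hc.comp measurable_fst
  have a2 : Measurable (fun q : ℝ × ℝ => conj (circleMap 0 (3 / 4) q.1)) := hcc.comp measurable_fst
  have a3 : Measurable (fun q : ℝ × ℝ => mob w (circleMap 0 r q.2)) := hM.comp measurable_snd
  have a4 : Measurable (fun q : ℝ × ℝ => B (mob w (circleMap 0 r q.2))) := hb.comp measurable_snd
  unfold NN
  exact (((((a1.const_mul 2).sub a3).pow_const 2).sub (a4.mul ((a1.sub (a3.const_mul 2)).pow_const 2))).div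
    ((((a2.mul a3).const_sub 2).pow_const 2).sub
      (a4.mul ((((a2.mul a3).const_mul 2).const_sub 1).pow_const 2)))).norm

/-- the mean of `DD` is small -/
theorem DD_small (h : TwoSheeted φ σ ϑ B) {w : ℂ} (hw : ‖w‖ < 1) {ε : ℝ} (hε : 0 < ε) :
    ∃ r, 0 < r ∧ r < 1 ∧
      (2 * π)⁻¹ * ∫ t in (0:ℝ)..2 * π, DD B (mob w (circleMap 0 r t)) ≤ ε := by
  obtain ⟨ι, a, -, -, -, hB⟩ := h.branch
  obtain ⟨r0, hr01, hr0⟩ := mean_small hB hw (show 0 < ε / 8 by linarith)
  have hw0 : 0 < 1 - ‖w‖ := by linarith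
  set c : ℝ := 1 - ε * (1 - ‖w‖) ^ 2 / 4 with hc
  have hc1 : c < 1 := by
    have : 0 < ε * (1 - ‖w‖) ^ 2 / 4 := by positivity
    linarith
  set r : ℝ := (max (max r0 c) 0 + 1) / 2 with hr
  have hm1 : max (max r0 c) 0 < 1 := max_lt (max_lt hr01 hc1) one_pos
  have hm0 : 0 ≤ max (max r0 c) 0 := le_max_right _ _
  have hr_1 : r < 1 := by rw [hr]; linarith
  have hr_0 : 0 < r := by rw [hr]; linarith
  have hmr : max (max r0 c) 0 < r := by rw [hr]; linarith
  have hr0r : r0 < r := lt_of_le_of_lt ((le_max_left _ _).trans (le_max_left _ _)) hmr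
  have hcr : c < r := lt_of_le_of_lt ((le_max_right _ _).trans (le_max_left _ _)) hmr
  refine ⟨r, hr_0, hr_1, ?_⟩
  have hcont1 : Continuous (fun t : ℝ => ‖mob w (circleMap 0 r t)‖) :=
    (cont_mob (f := id) hw hr_0 hr_1 continuousOn_id).norm
  have hcont2 : Continuous (fun t : ℝ => ‖B (mob w (circleMap 0 r t))‖) :=
    (cont_mob hw hr_0 hr_1 (B_diff h).continuousOn).norm
  have h1 := hr0 r hr0r hr_1 hr_0
  have h2 : (2 * π)⁻¹ * ∫ t in (0:ℝ)..2 * π, (1 - ‖mob w (circleMap 0 r t)‖) ≤ ε / 2 := by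
    have h3 : ∀ t : ℝ, 1 - ‖mob w (circleMap 0 r t)‖ ≤ ε / 2 := by
      intro t
      have hz := circle_lt hr_0 hr_1 t
      have h4 := one_sub_mob_le hw hz
      have h5 := one_sub_le_sq (norm_nonneg _) (mob_lt hw hz).le
      rw [norm_circleMap_zero, sq_abs] at h4
      refine h5.trans (h4.trans ?_)
      rw [div_le_iff₀ (by positivity)]
      have h6 : 1 - r < ε * (1 - ‖w‖) ^ 2 / 4 := by linarith
      nlinarith
    have hc1' : Continuous (fun t : ℝ => 1 - ‖mob w (circleMap 0 r t)‖) := continuous_const.sub hcont1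
    refine (circleAverage_mono_cont hc1' (continuous_const (y := ε / 2)) h3).trans (le_of_eq ?_)
    rw [intervalIntegral.integral_const, sub_zero, smul_eq_mul]
    field_simp
  have hc1' : Continuous (fun t : ℝ => 1 - ‖mob w (circleMap 0 r t)‖) := continuous_const.sub hcont1
  have hc2' : Continuous (fun t : ℝ => 4 * (1 - ‖B (mob w (circleMap 0 r t))‖)) :=
    continuous_const.mul (continuous_const.sub hcont2)
  unfold DD
  rw [intervalIntegral.integral_add (hc1'.intervalIntegrable _ _) (hc2'.intervalIntegrable _ _),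
    intervalIntegral.integral_const_mul, mul_add]
  have h3 : (2 * π)⁻¹ * (4 * ∫ t in (0:ℝ)..2 * π, (1 - ‖B (mob w (circleMap 0 r t))‖)) =
      4 * ((2 * π)⁻¹ * ∫ t in (0:ℝ)..2 * π, (1 - ‖B (mob w (circleMap 0 r t))‖)) := by ring
  rw [h3]
  linarith

/-- the mean over the parameter is small -/
theorem average_small (h : TwoSheeted φ σ ϑ B) {w : ℂ} (hw : ‖w‖ < 1) {ε : ℝ} (hε : 0 < ε) :
    ∃ r, 0 < r ∧ r < 1 ∧
      ∫⁻ α in Ioc (0:ℝ) (2 * π), ∫⁻ t in Ioc (0:ℝ) (2 * π), LL ‖NN (circleMap 0 (3 / 4) α)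
        (mob w (circleMap 0 r t)) (B (mob w (circleMap 0 r t)))‖ ≤ ENNReal.ofReal ε := by
  have hπ : (0:ℝ) < 2 * π := by positivity
  obtain ⟨r, hr0, hr1, hr⟩ := DD_small h hw
    (show 0 < ε / (2 * π * (8 / 3) * (2 * π)) by positivity)
  refine ⟨r, hr0, hr1, ?_⟩
  rw [lintegral_lintegral_swap]
  · have h1 : ∀ t : ℝ, ∫⁻ α in Ioc (0:ℝ) (2 * π), LL ‖NN (circleMap 0 (3 / 4) α)
        (mob w (circleMap 0 r t)) (B (mob w (circleMap 0 r t)))‖ ≤
        ENNReal.ofReal (2 * π * (8 / 3 * DD B (mob w (circleMap 0 r t)))) := fun t =>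
      average_pt h (mob_lt hw (circle_lt hr0 hr1 t))
    refine (lintegral_mono h1).trans ?_
    have hcont1 : Continuous (fun t : ℝ => ‖mob w (circleMap 0 r t)‖) :=
      (cont_mob (f := id) hw hr0 hr1 continuousOn_id).norm
    have hcont2 : Continuous (fun t : ℝ => ‖B (mob w (circleMap 0 r t))‖) :=
      (cont_mob hw hr0 hr1 (B_diff h).continuousOn).norm
    have hDc : Continuous (fun t : ℝ => 2 * π * (8 / 3 * DD B (mob w (circleMap 0 r t)))) := by
      unfold DD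
      fun_prop
    rw [← ofReal_integral_eq_lintegral_ofReal]
    · apply ENNReal.ofReal_le_ofReal
      rw [← intervalIntegral.integral_of_le hπ.le, intervalIntegral.integral_const_mul,
        intervalIntegral.integral_const_mul]
      rw [le_div_iff₀ (by positivity)] at hr
      refine le_trans (le_of_eq ?_) hr
      field_simp
    · exact hDc.integrableOn_Ioc
    · refine Eventually.of_forall (fun t => ?_)
      have := DD_nonneg h (mob_lt hw (circle_lt hr0 hr1 t))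
      simp only [Pi.zero_apply]
      positivity
  · exact (joint_meas h hw hr0 hr1).aemeasurable

/-- **Selection of the parameter.** -/
theorem exists_param (h : TwoSheeted φ σ ϑ B) (s : ℕ → ℂ) (hs : ∀ n, ‖s n‖ < 1) :
    ∃ α : ℝ, ∀ n : ℕ, ∀ δ : ℝ, 0 < δ → ∃ r, 0 < r ∧ r < 1 ∧
      ∫⁻ t in Ioc (0:ℝ) (2 * π), LL ‖NN (circleMap 0 (3 / 4) α)
        (mob (s n) (circleMap 0 r t)) (B (mob (s n) (circleMap 0 r t)))‖ ≤
        ENNReal.ofReal (2 * π * δ) := by
  have hπ : (0:ℝ) < 2 * π := by positivity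
  have key : ∀ n : ℕ, ∀ᵐ α ∂(volume.restrict (Ioc (0:ℝ) (2 * π))), ∀ δ : ℝ, 0 < δ → ∃ r, 0 < r ∧
      r < 1 ∧ ∫⁻ t in Ioc (0:ℝ) (2 * π), LL ‖NN (circleMap 0 (3 / 4) α)
        (mob (s n) (circleMap 0 r t)) (B (mob (s n) (circleMap 0 r t)))‖ ≤
        ENNReal.ofReal (2 * π * δ) := by
    intro n
    choose r hr0 hr1 hr using fun k : ℕ => average_small h (hs n)
      (show (0:ℝ) < (1 / 2) ^ k by positivity)
    set H : ℕ → ℝ → ℝ≥0∞ := fun k α => ∫⁻ t in Ioc (0:ℝ) (2 * π), LL ‖NN (circleMap 0 (3 / 4) α)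
        (mob (s n) (circleMap 0 (r k) t)) (B (mob (s n) (circleMap 0 (r k) t)))‖ with hH
    have hHm : ∀ k, Measurable (H k) := fun k =>
      (joint_meas h (hs n) (hr0 k) (hr1 k)).lintegral_prod_right'
    have hsum : ∫⁻ α in Ioc (0:ℝ) (2 * π), ∑' k, H k α ≠ ⊤ := by
      rw [lintegral_tsum (fun k => (hHm k).aemeasurable)]
      have h1 : ∑' k : ℕ, ENNReal.ofReal ((1 / 2) ^ k) = ENNReal.ofReal (∑' k : ℕ, (1 / 2 : ℝ) ^ k) :=
        (ENNReal.ofReal_tsum_of_nonneg (fun k => by positivity) summable_geometric_two).symm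
      refine ((ENNReal.tsum_le_tsum (fun k => hr k)).trans_lt ?_).ne
      rw [h1]
      exact ENNReal.ofReal_lt_top
    have hae := ae_lt_top (Measurable.tsum hHm) hsum
    filter_upwards [hae] with α hα δ hδ
    have ht := ENNReal.tendsto_atTop_zero_of_tsum_ne_top hα.ne
    have hev : ∀ᶠ k in atTop, H k α < ENNReal.ofReal (2 * π * δ) :=
      ht.eventually (gt_mem_nhds (by rw [ENNReal.ofReal_pos]; positivity))
    obtain ⟨k, hk⟩ := hev.exists
    exact ⟨r k, hr0 k, hr1 k, hk.le⟩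
  have hall : ∀ᵐ α ∂(volume.restrict (Ioc (0:ℝ) (2 * π))), ∀ n : ℕ, ∀ δ : ℝ, 0 < δ → ∃ r, 0 < r ∧
      r < 1 ∧ ∫⁻ t in Ioc (0:ℝ) (2 * π), LL ‖NN (circleMap 0 (3 / 4) α)
        (mob (s n) (circleMap 0 r t)) (B (mob (s n) (circleMap 0 r t)))‖ ≤
        ENNReal.ofReal (2 * π * δ) := ae_all_iff.2 key
  have hne : (ae (volume.restrict (Ioc (0:ℝ) (2 * π)))).NeBot := by
    rw [ae_neBot]
    intro h0
    have : volume.restrict (Ioc (0:ℝ) (2 * π)) univ = 0 := by rw [h0]; simp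
    rw [Measure.restrict_apply_univ, Real.volume_Ioc, ENNReal.ofReal_eq_zero] at this
    linarith
  exact hall.exists

end Surface

end Pool.Agent.W770.QP
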